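import Pool.Agent.InvDiam.Defs

/-!
# InvDiam / Block: the block built from a sparse family of copies of a tile system

`W, G, T` is a tile system (tiles = induced copies of `F` on `ι`), `𝓗` is a sparse family of injections
`W → Fin N` such that every `U` with `N ≤ |ι| |U|` contains the range of a member.

PROOF.  `G₀` = all pairs `h u, h v` with `h ∈ 𝓗`, `G.Adj u v`; `T₀ = {h ∘ c | h ∈ 𝓗, c ∈ T}`.
(s) If `h u`, `h v` (`u ≠ v`) are adjacent in `G₀`, or in a common tile of `T₀`, then `G.Adj u v`, or `u, v` are in a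
common tile of `T`: the other `h'` is `h` by `Sparse.two`.
(Small) `S` pairwise in common tiles and independent: if `|S| ≥ 3` (else `|S| ≤ 2 ≤ a`) all pairs of `S` are in the range of
one `h` (`Sparse.two` and `Sparse.three`), so `S = h(S')` with `S'` pairwise in common tiles of `T` and independent.
(o) If `v ∉ range (h ∘ c)` is adjacent to `h (c k)` and `h (c l)` then `k = l`: if `v ∈ range h` by (s) and `OutOne G T`; else
the two edges lie in `h'`, `h'' ≠ h`, and `Sparse.two`/`Sparse.three` apply.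
(Classes) Given `L`, take a family `𝓕` of pairs `(h, c)`, `h ∈ 𝓗`, `c ∈ T`, with the tiles `h ∘ c` pairwise disjoint, the `h` pairwise
different, `L` constant on the edges of each tile, with the largest number of members. Let `U` be the set of the
vertices not covered. If `N ≤ |ι| |U|` there is `h ∈ 𝓗` with range in `U` and by the Ramsey property of `T` (for
`L (h u) (h v)`) a tile `c`; `(h, c)` can be added (its `h` is new, since the range of an `h` used before meets the covered set).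
So `|ι| |U| < N`, and `|𝓕| |ι| ≤ N` as the tiles are disjoint. `κ = 𝓕 ⊕ U`, `cl x` = the tile of `x` or `x` itself.
`Λ a b` = the label of any edge `xy` with `cl x = a`, `cl y = b` (and `0` if there is none). It is well defined: let `xy` and `x'y'` be
edges with `cl x = cl x'`, `cl y = cl y'`. Both classes single: trivial. `x = x'` (or `y = y'`) and the other class a tile not
containing `x`: (o). Same tile: `L` is constant on it. Two different tiles `C ⊂ range h`, `C' ⊂ range h'`, `h ≠ h'`, with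
`x ≠ x'` in `C`, `y ≠ y'` in `C'`: let `h₁` contain the edge `xy` and `h₂` the edge `x'y'`; by the cases `h₁ = h`, `h₁ = h'`, other,
and the same for `h₂`, there is a cycle of length 2, 3 or 4 (if `h₁ = h` then `y ∈ range h ∩ range h'`, and so on).
Symmetry of `Λ` from the symmetry of `L` and the same statement.
-/

set_option autoImplicit false

namespace Pool.Agent.InvDiam

private lemma no_four {A V : Type} {H : Set (A → V)} (hsp : Sparse H) {h h' h1 h2 : A → V}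
    (hh : h ∈ H) (hh' : h' ∈ H) (hh1 : h1 ∈ H) (hh2 : h2 ∈ H) (hne : h ≠ h') {x x' y y' : V}
    (hx : x ∈ Set.range h) (hx' : x' ∈ Set.range h) (hy : y ∈ Set.range h')
    (hy' : y' ∈ Set.range h') (hx1 : x ∈ Set.range h1) (hy1 : y ∈ Set.range h1)
    (hx2 : x' ∈ Set.range h2) (hy2 : y' ∈ Set.range h2)
    (d1 : x ≠ x') (d2 : y ≠ y') (d3 : x ≠ y) (d4 : x' ≠ y') (d5 : x ≠ y') (d6 : x' ≠ y) :
    False := by
  by_cases e1 : h1 = h
  · rw [e1] at hx1 hy1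
    by_cases e2 : h2 = h
    · rw [e2] at hx2 hy2
      exact d2 (hsp.two _ hh _ hh' hne y y' hy1 hy hy' hy2)
    · by_cases e3 : h2 = h'
      · rw [e3] at hx2 hy2
        exact d6 (hsp.two _ hh _ hh' hne x' y hx' hx2 hy hy1)
      · exact hsp.three _ hh _ hh' _ hh2 hne (Ne.symm e3) e2 y y' x' hy1 hy hy' hy2 hx2 hx'
          d2 (Ne.symm d4) d6
  · by_cases e1' : h1 = h'
    · rw [e1'] at hx1 hy1
      by_cases e2 : h2 = h
      · rw [e2] at hx2 hy2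
        exact d5 (hsp.two _ hh _ hh' hne x y' hx hx1 hy' hy2)
      · by_cases e3 : h2 = h'
        · rw [e3] at hx2 hy2
          exact d1 (hsp.two _ hh _ hh' hne x x' hx hx1 hx2 hx')
        · exact hsp.three _ hh _ hh' _ hh2 hne (Ne.symm e3) e2 x y' x' hx hx1 hy' hy2 hx2 hx'
            d5 (Ne.symm d4) (Ne.symm d1)
    · by_cases e2 : h2 = h
      · rw [e2] at hx2 hy2
        exact hsp.three _ hh _ hh1 _ hh' (Ne.symm e1) e1' (Ne.symm hne) x y y' hx hx1 hy1 hy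
          hy' hy2 d3 d2 (Ne.symm d5)
      · by_cases e3 : h2 = h'
        · rw [e3] at hx2 hy2
          exact hsp.three _ hh _ hh1 _ hh' (Ne.symm e1) e1' (Ne.symm hne) x y x' hx hx1 hy1 hy
            hx2 hx' d3 (Ne.symm d6) (Ne.symm d1)
        · by_cases e4 : h1 = h2
          · rw [← e4] at hx2
            exact d1 (hsp.two _ hh _ hh1 (Ne.symm e1) x x' hx hx1 hx2 hx')
          · exact hsp.four _ hh _ hh1 _ hh' _ hh2 (Ne.symm e1) e1' (Ne.symm e3) e2 x y y' x'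
              hx hx1 hy1 hy hy' hy2 hx2 hx' d3 d2 (Ne.symm d4) (Ne.symm d1)

private def BG {W : Type} {N : ℕ} (G : SimpleGraph W) (𝓗 : Finset (W → Fin N)) :
    SimpleGraph (Fin N) where
  Adj x y := x ≠ y ∧ ∃ h ∈ 𝓗, ∃ u v, G.Adj u v ∧ h u = x ∧ h v = y
  symm := ⟨by
    rintro x y ⟨hxy, h, hh, u, v, huv, hu, hv⟩
    exact ⟨hxy.symm, h, hh, v, u, huv.symm, hv, hu⟩⟩
  loopless := ⟨fun x hx => hx.1 rfl⟩

private def BT {ι W : Type} {N : ℕ} (T : Set (ι → W)) (𝓗 : Finset (W → Fin N)) :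
    Set (ι → Fin N) := {t | ∃ h ∈ 𝓗, ∃ c ∈ T, t = h ∘ c}

private lemma bg_mem {W : Type} {N : ℕ} {G : SimpleGraph W} {𝓗 : Finset (W → Fin N)}
    {x y : Fin N} (hxy : (BG G 𝓗).Adj x y) :
    ∃ h ∈ 𝓗, x ∈ Set.range h ∧ y ∈ Set.range h := by
  obtain ⟨-, h, hh, u, v, -, hu, hv⟩ := hxy
  exact ⟨h, hh, ⟨u, hu⟩, ⟨v, hv⟩⟩

private lemma bg_adj {W : Type} {N : ℕ} {G : SimpleGraph W} {𝓗 : Finset (W → Fin N)}
    (hinj : ∀ h ∈ 𝓗, Function.Injective h) (hsp : Sparse (𝓗 : Set (W → Fin N)))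
    {h : W → Fin N} (hh : h ∈ 𝓗) {u v : W} (huv : (BG G 𝓗).Adj (h u) (h v)) : G.Adj u v := by
  obtain ⟨hne, h', hh', u', v', ha, hu, hv⟩ := huv
  by_cases e : h' = h
  · subst e
    rw [hinj _ hh hu, hinj _ hh hv] at ha
    exact ha
  · exact absurd (hsp.two _ hh _ hh' (Ne.symm e) (h u) (h v) ⟨u, rfl⟩ ⟨u', hu⟩ ⟨v', hv⟩
      ⟨v, rfl⟩) hne

private lemma bt_rel {ι W : Type} {N : ℕ} {T : Set (ι → W)} {𝓗 : Finset (W → Fin N)}
    (hinj : ∀ h ∈ 𝓗, Function.Injective h) (hsp : Sparse (𝓗 : Set (W → Fin N)))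
    {h : W → Fin N} (hh : h ∈ 𝓗) {u v : W} (hne : h u ≠ h v)
    (huv : Related (BT T 𝓗) (h u) (h v)) : Related T u v := by
  obtain ⟨t, ⟨h', hh', c, hc, rfl⟩, ⟨k, hk⟩, ⟨l, hl⟩⟩ := huv
  by_cases e : h' = h
  · subst e
    exact ⟨c, hc, ⟨k, hinj _ hh hk⟩, ⟨l, hinj _ hh hl⟩⟩
  · exact absurd (hsp.two _ hh _ hh' (Ne.symm e) (h u) (h v) ⟨u, rfl⟩ ⟨c k, hk⟩ ⟨c l, hl⟩
      ⟨v, rfl⟩) hne

private lemma b_small {ι W : Type} [Finite W] {N : ℕ} {G : SimpleGraph W} {T : Set (ι → W)}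
    {a : ℕ} (ha : 2 ≤ a) (hsmall : Small G T a) {𝓗 : Finset (W → Fin N)}
    (hinj : ∀ h ∈ 𝓗, Function.Injective h) (hsp : Sparse (𝓗 : Set (W → Fin N))) :
    Small (BG G 𝓗) (BT T 𝓗) a := by
  classical
  have : Fintype W := Fintype.ofFinite W
  intro S hS hS2
  by_cases h2 : S.card ≤ 2
  · exact h2.trans ha
  have h1 : 1 < S.card := by omega
  obtain ⟨x, hx, y, hy, hxy⟩ := Finset.one_lt_card.1 h1
  obtain ⟨t, ⟨h, hh, c, hc, rfl⟩, ⟨k, hk⟩, ⟨l, hl⟩⟩ := hS x hx y hy hxy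
  have hxh : x ∈ Set.range h := ⟨c k, hk⟩
  have hyh : y ∈ Set.range h := ⟨c l, hl⟩
  have hall : ∀ z ∈ S, z ∈ Set.range h := by
    intro z hz
    by_cases hzx : z = x
    · rw [hzx]; exact hxh
    by_cases hzy : z = y
    · rw [hzy]; exact hyh
    obtain ⟨t1, ⟨h1, hh1, c1, hc1, rfl⟩, ⟨k1, hk1⟩, ⟨l1, hl1⟩⟩ := hS x hx z hz (Ne.symm hzx)
    obtain ⟨t2, ⟨h2, hh2, c2, hc2, rfl⟩, ⟨k2, hk2⟩, ⟨l2, hl2⟩⟩ := hS y hy z hz (Ne.symm hzy)
    have hx1 : x ∈ Set.range h1 := ⟨c1 k1, hk1⟩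
    have hz1 : z ∈ Set.range h1 := ⟨c1 l1, hl1⟩
    have hy2 : y ∈ Set.range h2 := ⟨c2 k2, hk2⟩
    have hz2 : z ∈ Set.range h2 := ⟨c2 l2, hl2⟩
    by_cases e1 : h1 = h
    · rw [← e1]; exact hz1
    by_cases e2 : h2 = h
    · rw [← e2]; exact hz2
    exfalso
    by_cases e3 : h1 = h2
    · rw [← e3] at hy2
      exact hxy (hsp.two _ hh _ hh1 (Ne.symm e1) x y hxh hx1 hy2 hyh)
    · exact hsp.three _ hh _ hh2 _ hh1 (Ne.symm e2) (Ne.symm e3) e1 y z x hyh hy2 hz2 hz1 hx1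
        hxh (Ne.symm hzy) hzx hxy
  obtain ⟨S', hS'⟩ : ∃ S' : Finset W, S' = Finset.univ.filter (fun w => h w ∈ S) := ⟨_, rfl⟩
  have himg : S'.image h = S := by
    ext z
    rw [Finset.mem_image]
    constructor
    · rintro ⟨w, hw, rfl⟩
      rw [hS', Finset.mem_filter] at hw
      exact hw.2
    · intro hz
      obtain ⟨w, rfl⟩ := hall z hz
      exact ⟨w, by rw [hS', Finset.mem_filter]; exact ⟨Finset.mem_univ _, hz⟩, rfl⟩
  have hcard : S.card = S'.card := by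
    rw [← himg, Finset.card_image_of_injective _ (hinj h hh)]
  rw [hcard]
  have hmem : ∀ w ∈ S', h w ∈ S := by
    intro w hw
    rw [hS', Finset.mem_filter] at hw
    exact hw.2
  apply hsmall S'
  · intro u hu v hv huv
    have hne : h u ≠ h v := fun e => huv (hinj h hh e)
    exact bt_rel hinj hsp hh hne (hS _ (hmem u hu) _ (hmem v hv) hne)
  · intro u hu v hv huv
    exact hS2 _ (hmem u hu) _ (hmem v hv)
      ⟨fun e => huv.ne (hinj h hh e), h, hh, u, v, huv, rfl, rfl⟩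

private lemma b_out {ι W : Type} {N : ℕ} {F : SimpleGraph ι} {G : SimpleGraph W}
    {T : Set (ι → W)} (htile : IsTile F G T) (hout : OutOne G T)
    {𝓗 : Finset (W → Fin N)}
    (hinj : ∀ h ∈ 𝓗, Function.Injective h) (hsp : Sparse (𝓗 : Set (W → Fin N)))
    {h : W → Fin N} (hh : h ∈ 𝓗) {c : ι → W} (hc : c ∈ T) {v : Fin N}
    (hv : ∀ k, h (c k) ≠ v) {k l : ι} (hk : (BG G 𝓗).Adj v (h (c k)))
    (hl : (BG G 𝓗).Adj v (h (c l))) : k = l := by
  by_cases hvh : v ∈ Set.range h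
  · obtain ⟨v', rfl⟩ := hvh
    apply hout c hc v'
    · rintro ⟨m, rfl⟩
      exact hv m rfl
    · exact bg_adj hinj hsp hh hk
    · exact bg_adj hinj hsp hh hl
  · obtain ⟨h1, hh1, hv1, hk1⟩ := bg_mem hk
    obtain ⟨h2, hh2, hv2, hl2⟩ := bg_mem hl
    have e1 : h1 ≠ h := fun e => hvh (e ▸ hv1)
    have e2 : h2 ≠ h := fun e => hvh (e ▸ hv2)
    by_contra hkl
    have hne : h (c k) ≠ h (c l) := fun e => hkl ((htile c hc).1 (hinj h hh e))
    by_cases e3 : h1 = h2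
    · rw [← e3] at hl2
      exact hne (hsp.two _ hh _ hh1 (Ne.symm e1) _ _ ⟨_, rfl⟩ hk1 hl2 ⟨_, rfl⟩)
    · exact hsp.three _ hh _ hh1 _ hh2 (Ne.symm e1) e3 e2 (h (c k)) v (h (c l)) ⟨_, rfl⟩ hk1
        hv1 hv2 hl2 ⟨_, rfl⟩ (hv k) (Ne.symm (hv l)) (Ne.symm hne)

theorem block {ι W : Type} [Fintype ι] [Nonempty ι] [Finite W] (F : SimpleGraph ι)
    (G : SimpleGraph W) (T : Set (ι → W)) (a : ℕ) (ha : 2 ≤ a)
    (htile : IsTile F G T) (hout : OutOne G T) (hsmall : Small G T a)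
    (hram : ∀ L : W → W → ZMod 2, (∀ u v, L u v = L v u) →
      ∃ c ∈ T, ∃ b : ZMod 2, ∀ k l, F.Adj k l → L (c k) (c l) = b)
    (N : ℕ) (𝓗 : Finset (W → Fin N)) (hinj : ∀ h ∈ 𝓗, Function.Injective h)
    (hsp : Sparse (𝓗 : Set (W → Fin N)))
    (hbig : ∀ U : Finset (Fin N), N ≤ Fintype.card ι * U.card → ∃ h ∈ 𝓗, ∀ w, h w ∈ U) :
    ∃ (G₀ : SimpleGraph (Fin N)) (T₀ : Set (ι → Fin N)), Small G₀ T₀ a ∧
      ∀ L : Fin N → Fin N → ZMod 2, (∀ u v, L u v = L v u) →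
        ∃ (κ : Type) (_ : Fintype κ) (cl : Fin N → κ) (Λ : κ → κ → ZMod 2),
          Fintype.card κ * Fintype.card ι ≤ 2 * N ∧ (∀ p q, Λ p q = Λ q p) ∧
          (∀ x y, cl x = cl y → x ≠ y → Related T₀ x y) ∧
          (∀ x y, G₀.Adj x y → L x y = Λ (cl x) (cl y)) := by
  classical
  have : Fintype W := Fintype.ofFinite W
  refine ⟨BG G 𝓗, BT T 𝓗, b_small ha hsmall hinj hsp, ?_⟩
  intro L hL
  -- the families
  obtain ⟨Good, hGood⟩ : ∃ Good : Finset ((W → Fin N) × (ι → W)) → Prop, Good = fun 𝓕 =>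
      (∀ p ∈ 𝓕, p.1 ∈ 𝓗 ∧ p.2 ∈ T ∧ ∃ b : ZMod 2, ∀ k l, F.Adj k l →
        L (p.1 (p.2 k)) (p.1 (p.2 l)) = b) ∧
      ∀ p ∈ 𝓕, ∀ q ∈ 𝓕, p ≠ q → p.1 ≠ q.1 ∧ ∀ k l, p.1 (p.2 k) ≠ q.1 (q.2 l) := ⟨_, rfl⟩
  have hne : (Finset.univ.filter (fun 𝓕 => Good 𝓕)).Nonempty := by
    refine ⟨∅, ?_⟩
    rw [Finset.mem_filter]
    refine ⟨Finset.mem_univ _, ?_⟩
    rw [hGood]
    exact ⟨fun p hp => absurd hp (Finset.notMem_empty p),
      fun p hp => absurd hp (Finset.notMem_empty p)⟩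
  obtain ⟨𝓕, h𝓕, hmax⟩ := Finset.exists_max_image _ Finset.card hne
  rw [Finset.mem_filter] at h𝓕
  have hmax' : ∀ 𝓕', Good 𝓕' → 𝓕'.card ≤ 𝓕.card := fun 𝓕' h' =>
    hmax 𝓕' (by rw [Finset.mem_filter]; exact ⟨Finset.mem_univ _, h'⟩)
  have hg := h𝓕.2
  rw [hGood] at hg
  obtain ⟨hg1, hg2⟩ := hg
  obtain ⟨U, hU⟩ : ∃ U : Finset (Fin N), ∀ x, x ∈ U ↔ ∀ p ∈ 𝓕, ∀ k, p.1 (p.2 k) ≠ x :=
    ⟨Finset.univ.filter (fun x => ∀ p ∈ 𝓕, ∀ k, p.1 (p.2 k) ≠ x), fun x => by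
      rw [Finset.mem_filter]
      exact ⟨fun h => h.2, fun h => ⟨Finset.mem_univ _, h⟩⟩⟩
  -- few uncovered vertices
  have hUcard : Fintype.card ι * U.card < N := by
    by_contra hcon
    obtain ⟨h, hh, hhU⟩ := hbig U (not_lt.1 hcon)
    obtain ⟨c, hc, b, hb⟩ := hram (fun u v => L (h u) (h v)) (fun u v => hL _ _)
    obtain ⟨k₀⟩ := (inferInstance : Nonempty ι)
    have hnew : ∀ p ∈ 𝓕, p.1 ≠ h := by
      intro p hp e
      have h1 := (hU _).1 (hhU (p.2 k₀)) p hp k₀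
      rw [e] at h1
      exact h1 rfl
    have hnm : (h, c) ∉ 𝓕 := fun hm => hnew _ hm rfl
    have hgd : Good (insert (h, c) 𝓕) := by
      rw [hGood]
      refine ⟨?_, ?_⟩
      · intro p hp
        rcases Finset.mem_insert.1 hp with rfl | hp
        · exact ⟨hh, hc, b, hb⟩
        · exact hg1 p hp
      · intro p hp q hq hpq
        rcases Finset.mem_insert.1 hp with rfl | hp
        · rcases Finset.mem_insert.1 hq with rfl | hq
          · exact absurd rfl hpq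
          · exact ⟨Ne.symm (hnew q hq), fun k l => Ne.symm ((hU _).1 (hhU (c k)) q hq l)⟩
        · rcases Finset.mem_insert.1 hq with rfl | hq
          · exact ⟨hnew p hp, fun k l => (hU _).1 (hhU (c l)) p hp k⟩
          · exact hg2 p hp q hq hpq
    have h1 := hmax' _ hgd
    rw [Finset.card_insert_of_notMem hnm] at h1
    omega
  -- few tiles
  have hFcard : 𝓕.card * Fintype.card ι ≤ N := by
    have h1 : Function.Injective (fun z : 𝓕 × ι => z.1.1.1 (z.1.1.2 z.2)) := by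
      rintro ⟨⟨p, hp⟩, k⟩ ⟨⟨q, hq⟩, l⟩ h
      by_cases e : p = q
      · subst e
        have h2 := (htile _ (hg1 p hp).2.1).1 (hinj _ (hg1 p hp).1 h)
        change k = l at h2
        rw [h2]
      · exact absurd h ((hg2 p hp q hq e).2 k l)
    have h2 := Fintype.card_le_of_injective _ h1
    rw [Fintype.card_prod, Fintype.card_coe, Fintype.card_fin] at h2
    exact h2
  -- the classes
  have hcl : ∀ x : Fin N, ∃ a : (𝓕 ⊕ U), (∀ p : 𝓕, a = Sum.inl p → ∃ k, p.1.1 (p.1.2 k) = x) ∧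
      (∀ u : U, a = Sum.inr u → x = u.1) := by
    intro x
    by_cases hx : x ∈ U
    · refine ⟨Sum.inr ⟨x, hx⟩, ?_, ?_⟩
      · intro p hp
        cases hp
      · intro u hu
        have h1 := Sum.inr.inj hu
        rw [← h1]
    · rw [hU] at hx
      push Not at hx
      obtain ⟨p, hp, k, hk⟩ := hx
      refine ⟨Sum.inl ⟨p, hp⟩, ?_, ?_⟩
      · intro q hq
        have h1 := Sum.inl.inj hq
        rw [← h1]
        exact ⟨k, hk⟩
      · intro u hu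
        cases hu
  choose cl hcl1 hcl2 using hcl
  have hcleq : ∀ x y, cl x = cl y → x ≠ y → ∃ p ∈ 𝓕, ∃ k l, p.1 (p.2 k) = x ∧
      p.1 (p.2 l) = y := by
    intro x y hxy hne'
    rcases h : cl x with p | u
    · obtain ⟨k, hk⟩ := hcl1 x p h
      obtain ⟨l, hl⟩ := hcl1 y p (by rw [← hxy, h])
      exact ⟨p.1, p.2, k, l, hk, hl⟩
    · exact absurd ((hcl2 x u h).trans (hcl2 y u (by rw [← hxy, h])).symm) hne'
  -- edges inside a tile
  have htl : ∀ p ∈ 𝓕, ∀ k l, (BG G 𝓗).Adj (p.1 (p.2 k)) (p.1 (p.2 l)) → F.Adj k l := by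
    intro p hp k l hkl
    exact ((htile _ (hg1 p hp).2.1).2 k l).1 (bg_adj hinj hsp (hg1 p hp).1 hkl)
  -- the star case
  have hstar : ∀ x y y', (BG G 𝓗).Adj x y → (BG G 𝓗).Adj x y' → cl y = cl y' →
      L x y = L x y' := by
    intro x y y' h1 h2 h3
    by_cases hyy : y = y'
    · rw [hyy]
    obtain ⟨p, hp, k, l, rfl, rfl⟩ := hcleq y y' h3 hyy
    by_cases hx : ∃ m, p.1 (p.2 m) = x
    · obtain ⟨m, rfl⟩ := hx
      obtain ⟨b, hb⟩ := (hg1 p hp).2.2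
      rw [hb m k (htl p hp m k h1), hb m l (htl p hp m l h2)]
    · push Not at hx
      have hkl := b_out htile hout hinj hsp (hg1 p hp).1 (hg1 p hp).2.1 hx h1 h2
      rw [hkl]
  -- well defined
  have hwd : ∀ x y x' y', (BG G 𝓗).Adj x y → (BG G 𝓗).Adj x' y' → cl x = cl x' →
      cl y = cl y' → L x y = L x' y' := by
    intro x y x' y' h1 h2 h3 h4
    by_cases hxx : x = x'
    · subst hxx
      exact hstar x y y' h1 h2 h4
    by_cases hyy : y = y'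
    · subst hyy
      rw [hL x y, hL x' y]
      exact hstar y x x' h1.symm h2.symm h3
    obtain ⟨p, hp, k, l, rfl, rfl⟩ := hcleq x x' h3 hxx
    obtain ⟨q, hq, m, n, rfl, rfl⟩ := hcleq y y' h4 hyy
    by_cases hpq : p = q
    · subst hpq
      obtain ⟨b, hb⟩ := (hg1 p hp).2.2
      rw [hb k m (htl p hp k m h1), hb l n (htl p hp l n h2)]
    · exfalso
      obtain ⟨hpq1, hpq2⟩ := hg2 p hp q hq hpq
      obtain ⟨e1, he1, hx1, hy1⟩ := bg_mem h1
      obtain ⟨e2, he2, hx2, hy2⟩ := bg_mem h2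
      exact no_four hsp (Finset.mem_coe.2 (hg1 p hp).1) (Finset.mem_coe.2 (hg1 q hq).1)
        (Finset.mem_coe.2 he1) (Finset.mem_coe.2 he2) hpq1 ⟨_, rfl⟩ ⟨_, rfl⟩ ⟨_, rfl⟩ ⟨_, rfl⟩
        hx1 hy1 hx2 hy2 hxx hyy h1.ne h2.ne (hpq2 k n) (hpq2 l m)
  obtain ⟨Λ, hΛ⟩ : ∃ Λ : (𝓕 ⊕ U) → (𝓕 ⊕ U) → ZMod 2, ∀ a b,
      (∀ x y, cl x = a → cl y = b → (BG G 𝓗).Adj x y → Λ a b = L x y) ∧
      ((¬ ∃ x y, cl x = a ∧ cl y = b ∧ (BG G 𝓗).Adj x y) → Λ a b = 0) := by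
    refine ⟨fun a b => if h : ∃ x y, cl x = a ∧ cl y = b ∧ (BG G 𝓗).Adj x y then
      L h.choose h.choose_spec.choose else 0, ?_⟩
    intro a b
    constructor
    · intro x y hx hy hxy
      have h : ∃ x y, cl x = a ∧ cl y = b ∧ (BG G 𝓗).Adj x y := ⟨x, y, hx, hy, hxy⟩
      simp only [dif_pos h]
      have h5 := h.choose_spec.choose_spec
      exact hwd _ _ _ _ h5.2.2 hxy (h5.1.trans hx.symm) (h5.2.1.trans hy.symm)
    · intro h
      simp only [dif_neg h]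
  refine ⟨(𝓕 ⊕ U), inferInstance, cl, Λ, ?_, ?_, ?_, ?_⟩
  · rw [Fintype.card_sum, Fintype.card_coe, Fintype.card_coe, add_mul]
    have h1 : U.card * Fintype.card ι < N := by
      rw [mul_comm]
      exact hUcard
    omega
  · intro a b
    by_cases h : ∃ x y, cl x = a ∧ cl y = b ∧ (BG G 𝓗).Adj x y
    · obtain ⟨x, y, hx, hy, hxy⟩ := h
      rw [(hΛ a b).1 x y hx hy hxy, (hΛ b a).1 y x hy hx hxy.symm, hL]
    · rw [(hΛ a b).2 h, (hΛ b a).2]
      rintro ⟨x, y, hx, hy, hxy⟩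
      exact h ⟨y, x, hy, hx, hxy.symm⟩
  · intro x y hxy hne'
    obtain ⟨p, hp, k, l, h1, h2⟩ := hcleq x y hxy hne'
    exact ⟨p.1 ∘ p.2, ⟨p.1, (hg1 p hp).1, p.2, (hg1 p hp).2.1, rfl⟩, ⟨k, h1⟩, ⟨l, h2⟩⟩
  · intro x y hxy
    exact ((hΛ _ _).1 x y rfl rfl hxy).symm

end Pool.Agent.InvDiam
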