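import Pool.Agent.InvDiam.Defs

/-!
# InvDiam / Emb: vectors with prescribed scalar products outside a set of used vectors

PROOF.  `X = Fin t → ZMod 2`.
(1) Parseval: for `Y ⊆ X` the number of `x ∈ X` such that `{y ∈ Y | x ⬝ᵥ y = 0}` or `{y ∈ Y | x ⬝ᵥ y = 1}` has less than
`|Y| / 4` elements is at most `4 * 2^t / |Y|`: for such `x` the sum `S x = ∑_{y ∈ Y} (-1)^(x ⬝ᵥ y)` has `|S x| > |Y| / 2`, and
`∑_x (S x)^2 = 2^t |Y|` (for `y ≠ y'` the sum over `x` of `(-1)^(x ⬝ᵥ (y + y'))` is `0`). (`less`)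
(2) Each parity class `{x | x ⬝ᵥ x = b} = {x | x ⬝ᵥ 1 = b}` has `2^(t-1)` elements (`t ≥ 1`), so at least
`2^(t-1) - 2^t/4 - 1 ≥ 2^t / 8` of them are unused and non-zero.
(3) Number the points of `κ` as `1, …, k`, `k ≤ r`. Choose `x_1, x_2, …` one after the other and keep for every
`j > i` the set `Y_j` of the unused non-zero `y` with `y ⬝ᵥ y = Λ j j` and `y ⬝ᵥ x_l = Λ j l` for `l ≤ i`, with
`|Y_j| ≥ 2^t / 4^(i+2)`. `x_(i+1) ∈ Y_(i+1)` is chosen outside the exceptional sets (1) of the `Y_j`, `j > i+1`, and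
different from `x_1, …, x_i`: at most `r 4^(i+3) + r` elements are excluded, `< 2^t / 4^(i+2)` if `2^t > 4^(2 r + 10)`, say.
A convenient form for the induction (on `k`): for all `k` and all sets `Y_1, …, Y_k` with `|Y_j| ≥ 2^t / 4^a` and
`2^t > 4^(2a + 2k + 10)` and all symmetric `Λ` there are distinct `x_j ∈ Y_j` with `x_i ⬝ᵥ x_j = Λ i j` for `i ≠ j`.
-/

set_option autoImplicit false

namespace Pool.Agent.InvDiam

/-- The character of `ZMod 2`. -/
private def chi (a : ZMod 2) : ℤ := if a = 0 then 1 else -1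

private theorem chi_add (a b : ZMod 2) : chi (a + b) = chi a * chi b := by
  revert a b
  decide

private theorem chi_one (b : ZMod 2) : chi b ^ 2 = 1 := by
  revert b
  decide

private theorem flip_one (b c : ZMod 2) (h : c = b) : ¬ c + 1 = b := by
  revert b c
  decide

private theorem flip_two (b c : ZMod 2) (h : ¬ c = b) : c + 1 = b := by
  revert b c
  decide

private theorem chi_sum {t : ℕ} (z : Fin t → ZMod 2) (hz : z ≠ 0) :
    ∑ x : Fin t → ZMod 2, chi (x ⬝ᵥ z) = 0 := by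
  obtain ⟨i, hi⟩ : ∃ i, z i ≠ 0 := by
    by_contra h
    push Not at h
    exact hz (funext h)
  have hi1 : z i = 1 := by
    revert hi
    generalize z i = a
    revert a
    decide
  have h1 : ∑ x : Fin t → ZMod 2, chi ((x + Pi.single i 1) ⬝ᵥ z) =
      ∑ x : Fin t → ZMod 2, chi (x ⬝ᵥ z) :=
    Equiv.sum_comp (Equiv.addRight (Pi.single i 1 : Fin t → ZMod 2)) fun x => chi (x ⬝ᵥ z)
  have h2 : ∀ x : Fin t → ZMod 2, chi ((x + Pi.single i 1) ⬝ᵥ z) = - chi (x ⬝ᵥ z) := by
    intro x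
    rw [add_dotProduct, single_dotProduct, one_mul, hi1, chi_add]
    have : chi 1 = -1 := by decide
    rw [this, mul_neg_one]
  rw [Finset.sum_congr rfl fun x _ => h2 x, Finset.sum_neg_distrib] at h1
  linarith

private theorem card_univ_pow (t : ℕ) :
    (Finset.univ : Finset (Fin t → ZMod 2)).card = 2 ^ t := by
  rw [Finset.card_univ, Fintype.card_fun, Fintype.card_fin]
  rfl

private theorem chi_sq {t : ℕ} (Y : Finset (Fin t → ZMod 2)) :
    ∑ x : Fin t → ZMod 2, (∑ y ∈ Y, chi (x ⬝ᵥ y)) ^ 2 = 2 ^ t * Y.card := by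
  have h1 : ∀ x : Fin t → ZMod 2, (∑ y ∈ Y, chi (x ⬝ᵥ y)) ^ 2 =
      ∑ y ∈ Y, ∑ y' ∈ Y, chi (x ⬝ᵥ (y + y')) := by
    intro x
    rw [sq, Finset.sum_mul_sum]
    refine Finset.sum_congr rfl fun y _ => Finset.sum_congr rfl fun y' _ => ?_
    rw [dotProduct_add, chi_add]
  rw [Finset.sum_congr rfl fun x _ => h1 x, Finset.sum_comm]
  have h2 : ∀ y ∈ Y, ∑ x : Fin t → ZMod 2, ∑ y' ∈ Y, chi (x ⬝ᵥ (y + y')) = 2 ^ t := by
    intro y hy
    rw [Finset.sum_comm, Finset.sum_eq_single_of_mem y hy]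
    · have h3 : y + y = 0 := by
        funext i
        exact CharTwo.add_self_eq_zero (y i)
      have h4 : ∀ x : Fin t → ZMod 2, chi (x ⬝ᵥ (y + y)) = 1 := by
        intro x
        rw [h3, dotProduct_zero]
        rfl
      rw [Finset.sum_congr rfl fun x _ => h4 x, Finset.sum_const, card_univ_pow, nsmul_one]
      push_cast
      ring
    · intro y' _ hne
      refine chi_sum _ fun h => hne ?_
      funext i
      have h5 : y i + y' i = 0 := congrFun h i
      exact (CharTwo.add_eq_zero.1 h5).symm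
  rw [Finset.sum_congr rfl h2, Finset.sum_const, nsmul_eq_mul, mul_comm]

private theorem chi_card {t : ℕ} (Y : Finset (Fin t → ZMod 2)) (b : ZMod 2)
    (x : Fin t → ZMod 2) :
    ∑ y ∈ Y, chi (x ⬝ᵥ y) =
      chi b * (2 * (Y.filter fun y => x ⬝ᵥ y = b).card - Y.card) := by
  have h1 : ∀ a : ZMod 2, chi a = chi b * (2 * (if a = b then 1 else 0) - 1) := by
    revert b
    decide
  rw [Finset.sum_congr rfl fun y _ => h1 (x ⬝ᵥ y), ← Finset.mul_sum, Finset.sum_sub_distrib,
    ← Finset.mul_sum, Finset.sum_boole, Finset.sum_const, nsmul_one]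

theorem parseval {t : ℕ} (Y : Finset (Fin t → ZMod 2)) (b : ZMod 2) :
    (Finset.univ.filter fun x : Fin t → ZMod 2 =>
      4 * (Y.filter fun y => x ⬝ᵥ y = b).card < Y.card).card * Y.card ≤ 4 * 2 ^ t := by
  obtain ⟨B, hB⟩ : ∃ B, B = Finset.univ.filter fun x : Fin t → ZMod 2 =>
      4 * (Y.filter fun y => x ⬝ᵥ y = b).card < Y.card := ⟨_, rfl⟩
  rw [← hB]
  rcases Nat.eq_zero_or_pos Y.card with h0 | hpos
  · rw [h0, mul_zero]
    exact Nat.zero_le _
  have h1 : ∀ x ∈ B, ((Y.card : ℤ)) ^ 2 ≤ 4 * (∑ y ∈ Y, chi (x ⬝ᵥ y)) ^ 2 := by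
    intro x hx
    rw [hB, Finset.mem_filter] at hx
    have h2 := hx.2
    have hc : chi b ^ 2 = 1 := chi_one b
    rw [chi_card Y b x, mul_pow, hc, one_mul]
    have h3 : (4 : ℤ) * ((Y.filter fun y => x ⬝ᵥ y = b).card : ℤ) < (Y.card : ℤ) := by
      exact_mod_cast h2
    have h4 : (0 : ℤ) ≤ ((Y.filter fun y => x ⬝ᵥ y = b).card : ℤ) := Int.natCast_nonneg _
    nlinarith
  have h5 : (B.card : ℤ) * (Y.card : ℤ) ^ 2 ≤ 4 * (2 ^ t * Y.card) := by
    calc (B.card : ℤ) * (Y.card : ℤ) ^ 2 = ∑ _x ∈ B, (Y.card : ℤ) ^ 2 := by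
          rw [Finset.sum_const, nsmul_eq_mul]
      _ ≤ ∑ x ∈ B, 4 * (∑ y ∈ Y, chi (x ⬝ᵥ y)) ^ 2 := Finset.sum_le_sum h1
      _ ≤ ∑ x : Fin t → ZMod 2, 4 * (∑ y ∈ Y, chi (x ⬝ᵥ y)) ^ 2 :=
          Finset.sum_le_sum_of_subset_of_nonneg (Finset.subset_univ _) fun x _ _ => by positivity
      _ = _ := by rw [← Finset.mul_sum, chi_sq]
  have hYp : (0 : ℤ) < (Y.card : ℤ) := by exact_mod_cast hpos
  have h6 : ((B.card * Y.card : ℕ) : ℤ) ≤ ((4 * 2 ^ t : ℕ) : ℤ) := by
    push_cast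
    by_contra hlt
    push Not at hlt
    nlinarith
  exact_mod_cast h6

private theorem card_le_erase {α : Type*} [DecidableEq α] (S : Finset α) (a : α) :
    S.card ≤ (S.erase a).card + 1 := by
  have := Finset.pred_card_le_card_erase (s := S) (a := a)
  omega

private theorem emb_core (t : ℕ) : ∀ (k a : ℕ), 4 ^ (2 * a + 4 * k + 10) < 2 ^ t →
    ∀ Y : Fin k → Finset (Fin t → ZMod 2), (∀ j, 2 ^ t ≤ 4 ^ a * (Y j).card) →
    ∀ Λ : Fin k → Fin k → ZMod 2, (∀ i j, Λ i j = Λ j i) →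
    ∃ x : Fin k → Fin t → ZMod 2, Function.Injective x ∧ (∀ j, x j ∈ Y j) ∧
      ∀ i j, i ≠ j → x i ⬝ᵥ x j = Λ i j := by
  intro k
  induction k with
  | zero =>
    intro a _ Y _ Λ _
    exact ⟨fun j => j.elim0, fun j => j.elim0, fun j => j.elim0, fun j => j.elim0⟩
  | succ k ih =>
    intro a ht Y hY Λ hΛ
    classical
    obtain ⟨B, hB⟩ : ∃ B : Fin k → Finset (Fin t → ZMod 2), B = fun j =>
        Finset.univ.filter fun x : Fin t → ZMod 2 =>
          4 * ((Y j.succ).filter fun y => x ⬝ᵥ y = Λ 0 j.succ).card < (Y j.succ).card := ⟨_, rfl⟩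
    have hBc : ∀ j, (B j).card ≤ 4 ^ (a + 1) := by
      intro j
      have h1 := parseval (Y j.succ) (Λ 0 j.succ)
      have h2 : (B j).card * (Y j.succ).card ≤ 4 * 2 ^ t := by
        rw [hB]
        exact h1
      have h3 := hY j.succ
      have h4 : 0 < (Y j.succ).card := by
        rcases Nat.eq_zero_or_pos (Y j.succ).card with h | h
        · rw [h, mul_zero] at h3
          have := Nat.two_pow_pos t
          omega
        · exact h
      have h5 : (B j).card * (Y j.succ).card ≤ 4 ^ (a + 1) * (Y j.succ).card := by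
        calc (B j).card * (Y j.succ).card ≤ 4 * 2 ^ t := h2
          _ ≤ 4 * (4 ^ a * (Y j.succ).card) := Nat.mul_le_mul_left 4 h3
          _ = _ := by rw [pow_succ]; ring
      exact Nat.le_of_mul_le_mul_right h5 h4
    have hU : (Finset.univ.biUnion B).card ≤ k * 4 ^ (a + 1) := by
      refine Finset.card_biUnion_le.trans ?_
      refine (Finset.sum_le_sum fun j _ => hBc j).trans ?_
      rw [Finset.sum_const, Finset.card_univ, Fintype.card_fin, smul_eq_mul]
    have hk4 : k ≤ 4 ^ k := (Nat.lt_pow_self (by norm_num : 1 < 4)).le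
    have hlt : (Finset.univ.biUnion B).card < (Y 0).card := by
      refine hU.trans_lt ?_
      have h1 := hY 0
      have h2 : 4 ^ a * (k * 4 ^ (a + 1)) < 4 ^ a * (Y 0).card := by
        refine lt_of_le_of_lt ?_ (ht.trans_le h1)
        calc 4 ^ a * (k * 4 ^ (a + 1)) ≤ 4 ^ a * (4 ^ k * 4 ^ (a + 1)) :=
              Nat.mul_le_mul_left _ (Nat.mul_le_mul_right _ hk4)
          _ = 4 ^ (a + (k + (a + 1))) := by rw [pow_add 4 a (k + (a + 1)), pow_add 4 k (a + 1)]
          _ ≤ _ := Nat.pow_le_pow_right (by norm_num) (by omega)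
      exact Nat.lt_of_mul_lt_mul_left h2
    obtain ⟨x₀, hx₀, hx₀B⟩ := Finset.exists_mem_notMem_of_card_lt_card hlt
    have hx₀j : ∀ j : Fin k, (Y j.succ).card ≤
        4 * ((Y j.succ).filter fun y => x₀ ⬝ᵥ y = Λ 0 j.succ).card := by
      intro j
      by_contra hcon
      push Not at hcon
      apply hx₀B
      rw [Finset.mem_biUnion]
      refine ⟨j, Finset.mem_univ _, ?_⟩
      rw [hB]
      simp only [Finset.mem_filter, Finset.mem_univ, true_and]
      exact hcon
    obtain ⟨x', hx'1, hx'2, hx'3⟩ := ih (a + 2) (by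
        refine lt_of_le_of_lt (le_of_eq ?_) ht
        congr 1
        ring)
      (fun j => ((Y j.succ).filter fun y => x₀ ⬝ᵥ y = Λ 0 j.succ).erase x₀) (fun j => by
        have h1 := hx₀j j
        have h2 := hY j.succ
        have h3 : ((Y j.succ).filter fun y => x₀ ⬝ᵥ y = Λ 0 j.succ).card ≤
            (((Y j.succ).filter fun y => x₀ ⬝ᵥ y = Λ 0 j.succ).erase x₀).card + 1 :=
          card_le_erase _ _
        obtain ⟨u, hu⟩ : ∃ u, u = (((Y j.succ).filter fun y => x₀ ⬝ᵥ y =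
          Λ 0 j.succ).erase x₀).card := ⟨_, rfl⟩
        obtain ⟨w, hw⟩ : ∃ w, w = ((Y j.succ).filter fun y => x₀ ⬝ᵥ y = Λ 0 j.succ).card :=
          ⟨_, rfl⟩
        obtain ⟨q, hq⟩ : ∃ q, q = (Y j.succ).card := ⟨_, rfl⟩
        rw [← hu]
        rw [← hw, ← hu] at h3
        rw [← hw, ← hq] at h1
        rw [← hq] at h2
        have h4 : 4 ^ (a + 2) ≤ 2 ^ t :=
          (Nat.pow_le_pow_right (by norm_num) (by omega)).trans ht.le
        have h5 : 4 ^ a * q ≤ 4 ^ a * (4 * (u + 1)) :=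
          Nat.mul_le_mul_left _ (h1.trans (Nat.mul_le_mul_left 4 h3))
        have h6 : 4 * 2 ^ t ≤ 4 ^ (a + 2) * u + 4 ^ (a + 2) := by
          calc 4 * 2 ^ t ≤ 4 * (4 ^ a * (4 * (u + 1))) := Nat.mul_le_mul_left 4 (h2.trans h5)
            _ = _ := by rw [pow_add]; ring
        omega)
      (fun i j => Λ i.succ j.succ) (fun i j => hΛ _ _)
    have hmem : ∀ j : Fin k, x' j ≠ x₀ ∧ x' j ∈ Y j.succ ∧ x₀ ⬝ᵥ x' j = Λ 0 j.succ := by
      intro j
      have h1 := hx'2 j
      simp only [Finset.mem_erase, Finset.mem_filter] at h1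
      exact h1
    refine ⟨Fin.cons x₀ x', ?_, ?_, ?_⟩
    · rw [Fin.cons_injective_iff]
      refine ⟨?_, hx'1⟩
      rintro ⟨j, hj⟩
      exact (hmem j).1 hj
    · intro j
      refine Fin.cases ?_ (fun j => ?_) j
      · exact hx₀
      · exact (hmem j).2.1
    · intro i j
      refine Fin.cases ?_ (fun i => ?_) i
      · refine Fin.cases ?_ (fun j => ?_) j
        · intro h
          exact absurd rfl h
        · intro _
          exact (hmem j).2.2
      · refine Fin.cases ?_ (fun j => ?_) j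
        · intro _
          rw [hΛ, dotProduct_comm]
          exact (hmem i).2.2
        · intro h
          exact hx'3 i j fun h' => h (by rw [h'])

/-- The parity classes. -/
private theorem card_parity {t : ℕ} (ht : 0 < t) (b : ZMod 2) :
    2 * (Finset.univ.filter fun x : Fin t → ZMod 2 => x ⬝ᵥ x = b).card = 2 ^ t := by
  have hsq : ∀ x : Fin t → ZMod 2, x ⬝ᵥ x = ∑ i, x i := by
    intro x
    refine Finset.sum_congr rfl fun i _ => ?_
    generalize x i = a
    revert a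
    decide
  have hadd : ∀ x : Fin t → ZMod 2, (x + Pi.single ⟨0, ht⟩ 1) ⬝ᵥ (x + Pi.single ⟨0, ht⟩ 1) =
      x ⬝ᵥ x + 1 := by
    intro x
    rw [hsq, hsq]
    simp only [Pi.add_apply]
    rw [Finset.sum_add_distrib, Finset.sum_pi_single']
    simp
  have h1 : (Finset.univ.filter fun x : Fin t → ZMod 2 => x ⬝ᵥ x = b).card =
      (Finset.univ.filter fun x : Fin t → ZMod 2 => ¬ x ⬝ᵥ x = b).card := by
    refine Finset.card_bij' (fun x _ => x + Pi.single ⟨0, ht⟩ 1)
      (fun x _ => x + Pi.single ⟨0, ht⟩ 1) ?_ ?_ ?_ ?_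
    · intro x hx
      simp only [Finset.mem_filter, Finset.mem_univ, true_and] at hx ⊢
      rw [hadd]
      exact flip_one b _ hx
    · intro x hx
      simp only [Finset.mem_filter, Finset.mem_univ, true_and] at hx ⊢
      rw [hadd]
      exact flip_two b _ hx
    · intro x _
      funext i
      simp only [Pi.add_apply]
      rw [add_assoc, CharTwo.add_self_eq_zero, add_zero]
    · intro x _
      funext i
      simp only [Pi.add_apply]
      rw [add_assoc, CharTwo.add_self_eq_zero, add_zero]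
  have h2 := Finset.card_filter_add_card_filter_not (s := (Finset.univ : Finset (Fin t → ZMod 2)))
    (fun x => x ⬝ᵥ x = b)
  rw [card_univ_pow] at h2
  omega

theorem emb (r : ℕ) : ∃ t₀ : ℕ, ∀ t : ℕ, t₀ ≤ t → ∀ (κ : Type) [Fintype κ], Fintype.card κ ≤ r →
    ∀ used : Finset (Fin t → ZMod 2), 4 * used.card ≤ 2 ^ t →
    ∀ Λ : κ → κ → ZMod 2, (∀ a b, Λ a b = Λ b a) →
    ∃ x : κ → Fin t → ZMod 2, Function.Injective x ∧ (∀ k, x k ∉ used ∧ x k ≠ 0) ∧
      ∀ k l, x k ⬝ᵥ x l = Λ k l := by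
  classical
  refine ⟨8 * r + 29, fun t ht κ _ hκ used hused Λ hΛ => ?_⟩
  obtain ⟨g⟩ : Nonempty (κ ≃ Fin (Fintype.card κ)) := ⟨Fintype.equivFin κ⟩
  have h0 : 0 < t := by omega
  have ht4 : 4 ^ (2 * 2 + 4 * Fintype.card κ + 10) < 2 ^ t := by
    calc 4 ^ (2 * 2 + 4 * Fintype.card κ + 10) =
          2 ^ (2 * (2 * 2 + 4 * Fintype.card κ + 10)) := by
          rw [pow_mul]
          norm_num
      _ < 2 ^ t := Nat.pow_lt_pow_right (by norm_num) (by omega)
  obtain ⟨x, hx1, hx2, hx3⟩ := emb_core t (Fintype.card κ) 2 ht4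
    (fun j => ((Finset.univ.filter fun x : Fin t → ZMod 2 =>
      x ⬝ᵥ x = Λ (g.symm j) (g.symm j)) \ used).erase 0) (fun j => by
        have h1 := card_parity h0 (Λ (g.symm j) (g.symm j))
        obtain ⟨P, hP⟩ : ∃ P, P = Finset.univ.filter fun x : Fin t → ZMod 2 =>
          x ⬝ᵥ x = Λ (g.symm j) (g.symm j) := ⟨_, rfl⟩
        rw [← hP] at h1 ⊢
        have h2 : P.card - used.card ≤ (P \ used).card := Finset.le_card_sdiff used P
        have h3 : (P \ used).card ≤ ((P \ used).erase 0).card + 1 :=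
          card_le_erase _ _
        have h4 : 4 ^ 2 ≤ 2 ^ t := (Nat.pow_le_pow_right (by norm_num) (by omega)).trans ht4.le
        norm_num at h4 ⊢
        omega)
    (fun i j => Λ (g.symm i) (g.symm j)) (fun i j => hΛ _ _)
  have hmem : ∀ j, x j ≠ 0 ∧ x j ⬝ᵥ x j = Λ (g.symm j) (g.symm j) ∧ x j ∉ used := by
    intro j
    have h1 := hx2 j
    simp only [Finset.mem_erase, Finset.mem_sdiff, Finset.mem_filter, Finset.mem_univ,
      true_and] at h1
    exact h1
  refine ⟨fun k => x (g k), hx1.comp g.injective, fun k => ⟨(hmem (g k)).2.2, (hmem (g k)).1⟩,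
    fun k l => ?_⟩
  by_cases hkl : k = l
  · subst hkl
    have h1 := (hmem (g k)).2.1
    rw [Equiv.symm_apply_apply] at h1
    exact h1
  · have h1 := hx3 (g k) (g l) fun h => hkl (g.injective h)
    simp only [Equiv.symm_apply_apply] at h1
    exact h1

end Pool.Agent.InvDiam
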