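import Pool.Agent.InvDiam.Defs

/-!
# InvDiam / Ram: Ramsey's theorem for two colours of pairs

PROOF.  Usual proof. For example: for all `s` and `t` there is `p` such that every symmetric
`ε : Fin p → Fin p → ZMod 2` (or on any finite type with at least `p` elements) has an `s`-set with all pairs
of colour `0` or a `t`-set with all pairs of colour `1` (induction on `s + t`); then `s = t = |ι|` and an
embedding of `ι` onto the set.
-/

set_option autoImplicit false

namespace Pool.Agent.InvDiam

private theorem ram_aux {α : Type} (ε : α → α → ZMod 2) (hε : ∀ i j, ε i j = ε j i) :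
    ∀ s t : ℕ, ∀ A : Finset α, 2 ^ (s + t) ≤ A.card →
      (∃ S ⊆ A, S.card = s ∧ ∀ x ∈ S, ∀ y ∈ S, x ≠ y → ε x y = 0) ∨
      (∃ S ⊆ A, S.card = t ∧ ∀ x ∈ S, ∀ y ∈ S, x ≠ y → ε x y = 1) := by
  classical
  intro s
  induction s with
  | zero => intro t A _; exact Or.inl ⟨∅, Finset.empty_subset _, rfl, by simp⟩
  | succ s ihs =>
    intro t
    induction t with
    | zero => intro A _; exact Or.inr ⟨∅, Finset.empty_subset _, rfl, by simp⟩
    | succ t iht =>
      intro A hA
      have hpos : 0 < A.card := lt_of_lt_of_le (by positivity) hA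
      obtain ⟨a, ha⟩ := Finset.card_pos.1 hpos
      set A' := A.erase a with hA'
      have hcard : A'.card = A.card - 1 := Finset.card_erase_of_mem ha
      set A0 := A'.filter (fun x => ε a x = 0) with hA0
      set A1 := A'.filter (fun x => ¬ ε a x = 0) with hA1
      have hsum : A0.card + A1.card = A'.card := Finset.card_filter_add_card_filter_not _
      have hsub0 : A0 ⊆ A := (Finset.filter_subset _ _).trans (Finset.erase_subset _ _)
      have hsub1 : A1 ⊆ A := (Finset.filter_subset _ _).trans (Finset.erase_subset _ _)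
      have hna0 : a ∉ A0 := fun h => Finset.notMem_erase a A (Finset.mem_filter.1 h).1
      have hna1 : a ∉ A1 := fun h => Finset.notMem_erase a A (Finset.mem_filter.1 h).1
      have e0 : ∀ x ∈ A0, ε a x = 0 := fun x hx => (Finset.mem_filter.1 hx).2
      have e1 : ∀ x ∈ A1, ε a x = 1 := by
        intro x hx
        have h1 := (Finset.mem_filter.1 hx).2
        have h2 : ∀ b : ZMod 2, ¬ b = 0 → b = 1 := by decide
        exact h2 _ h1
      have ins : ∀ (c : ZMod 2) (S B : Finset α), S ⊆ B → (∀ x ∈ B, ε a x = c) →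
          (∀ x ∈ S, ∀ y ∈ S, x ≠ y → ε x y = c) →
          ∀ x ∈ insert a S, ∀ y ∈ insert a S, x ≠ y → ε x y = c := by
        intro c S B hSB hB hS x hx y hy hxy
        rcases Finset.mem_insert.1 hx with rfl | hx'
        · rcases Finset.mem_insert.1 hy with rfl | hy'
          · exact absurd rfl hxy
          · exact hB y (hSB hy')
        · rcases Finset.mem_insert.1 hy with rfl | hy'
          · rw [hε]
            exact hB x (hSB hx')
          · exact hS x hx' y hy' hxy
      have hp : 2 ^ (s + 1 + (t + 1)) = 2 ^ (s + (t + 1)) + 2 ^ (s + 1 + t) := by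
        rw [show s + 1 + (t + 1) = (s + (t + 1)) + 1 by ring, pow_succ,
          show s + 1 + t = s + (t + 1) by ring]
        ring
      rw [hp] at hA
      by_cases hc : 2 ^ (s + (t + 1)) ≤ A0.card
      · rcases ihs (t + 1) A0 hc with ⟨S, h1, h2, h3⟩ | ⟨S, h1, h2, h3⟩
        · refine Or.inl ⟨insert a S, Finset.insert_subset ha (h1.trans hsub0), ?_,
            ins 0 S A0 h1 e0 h3⟩
          rw [Finset.card_insert_of_notMem (fun h => hna0 (h1 h)), h2]
        · exact Or.inr ⟨S, h1.trans hsub0, h2, h3⟩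
      · have hc1 : 2 ^ (s + 1 + t) ≤ A1.card := by omega
        rcases iht A1 hc1 with ⟨S, h1, h2, h3⟩ | ⟨S, h1, h2, h3⟩
        · exact Or.inl ⟨S, h1.trans hsub1, h2, h3⟩
        · refine Or.inr ⟨insert a S, Finset.insert_subset ha (h1.trans hsub1), ?_,
            ins 1 S A1 h1 e1 h3⟩
          rw [Finset.card_insert_of_notMem (fun h => hna1 (h1 h)), h2]

theorem ramsey (ι : Type) [Finite ι] : ∃ p : ℕ, ∀ ε : Fin p → Fin p → ZMod 2,
    (∀ i j, ε i j = ε j i) → ∃ (e : ι ↪ Fin p) (b : ZMod 2), ∀ k l, k ≠ l → ε (e k) (e l) = b := by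
  classical
  have := Fintype.ofFinite ι
  refine ⟨2 ^ (Fintype.card ι + Fintype.card ι), fun ε hε => ?_⟩
  have key : ∀ (S : Finset (Fin (2 ^ (Fintype.card ι + Fintype.card ι)))) (b : ZMod 2),
      S.card = Fintype.card ι → (∀ x ∈ S, ∀ y ∈ S, x ≠ y → ε x y = b) →
      ∃ (e : ι ↪ Fin (2 ^ (Fintype.card ι + Fintype.card ι))) (b : ZMod 2),
        ∀ k l, k ≠ l → ε (e k) (e l) = b := by
    intro S b hS hb
    have e0 : ι ≃ S := Fintype.equivOfCardEq (by rw [Fintype.card_coe, hS])
    refine ⟨e0.toEmbedding.trans (Function.Embedding.subtype _), b, fun k l hkl => ?_⟩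
    refine hb _ (e0 k).2 _ (e0 l).2 fun h => hkl ?_
    exact e0.injective (Subtype.ext h)
  rcases ram_aux ε hε (Fintype.card ι) (Fintype.card ι) Finset.univ (by simp) with
    ⟨S, _, h2, h3⟩ | ⟨S, _, h2, h3⟩
  · exact key S 0 h2 h3
  · exact key S 1 h2 h3

end Pool.Agent.InvDiam
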