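import Pool.Agent.InvDiam.Step
import Pool.Agent.InvDiam.Ram

/-!
# InvDiam / Part: the partite construction
-/

set_option autoImplicit false

namespace Pool.Agent.InvDiam

/-- The base system: disjoint copies of `F`, one for every injection of `ι` into the parts. -/
def base {ι : Type} [Finite ι] (F : SimpleGraph ι) (p : ℕ) : PSys ι p where
  W := (ι ↪ Fin p) × ι
  fin := inferInstance
  part x := x.1 x.2
  G :=
    { Adj := fun x y => x.1 = y.1 ∧ F.Adj x.2 y.2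
      symm := ⟨fun _ _ h => ⟨h.1.symm, h.2.symm⟩⟩
      loopless := ⟨fun _ h => h.2.ne rfl⟩ }
  T := {c | ∃ e : ι ↪ Fin p, c = fun k => (e, k)}

theorem base_ok {ι : Type} [Finite ι] (F : SimpleGraph ι)
    (hF : ∀ x y z, F.Adj x y → F.Adj y z → F.Adj x z → False) (a : ℕ) (ha : 2 ≤ a)
    (hα : ∀ S : Finset ι, (∀ x ∈ S, ∀ y ∈ S, ¬ F.Adj x y) → S.card ≤ a) (p : ℕ) :
    (base F p).Ok F a := by
  classical
  refine ⟨?_, ?_, ?_, ?_, ?_, ?_, ?_⟩
  · rintro ⟨e, k⟩ ⟨e', k'⟩ ⟨h1, h2⟩ h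
    simp only at h1 h2
    subst h1
    exact h2.ne (e.injective h)
  · rintro c ⟨e, rfl⟩
    exact e.injective
  · rintro c ⟨e, rfl⟩ k l
    exact ⟨fun h => h.2, fun h => ⟨rfl, h⟩⟩
  · rintro ⟨e, k⟩ ⟨e', k'⟩ ⟨h1, h2⟩
    simp only at h1 h2
    subst h1
    exact ⟨_, ⟨e, rfl⟩, ⟨k, rfl⟩, ⟨k', rfl⟩⟩
  · intro x y z h1 h2 h3
    exact hF _ _ _ h1.2 h2.2 h3.2
  · rintro c ⟨e, rfl⟩ v hv k l h1 h2
    exfalso
    apply hv
    refine ⟨v.2, ?_⟩
    have := h1.1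
    simp only at this
    exact Prod.ext this.symm rfl
  · intro S hrel hind
    rcases Nat.lt_or_ge S.card 1 with hS | hS
    · omega
    obtain ⟨⟨e, k⟩, hx⟩ := Finset.card_pos.1 hS
    have hfst : ∀ y ∈ S, y.1 = e := by
      intro y hy
      by_cases hne : ((e, k) : (ι ↪ Fin p) × ι) = y
      · rw [← hne]
      · obtain ⟨c, ⟨e', rfl⟩, ⟨m, hm⟩, ⟨m', hm'⟩⟩ := hrel _ hx y hy hne
        have h1 := congrArg Prod.fst hm
        have h2 := congrArg Prod.fst hm'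
        simp only at h1 h2
        rw [← h2, h1]
    let f : (base F p).W → ι := fun x => (show (ι ↪ Fin p) × ι from x).2
    have hinj : Set.InjOn f (S : Set (base F p).W) := by
      intro x hx y hy hxy
      exact Prod.ext ((hfst x hx).trans (hfst y hy).symm) hxy
    have hle := hα (S.image f) (by
      intro x hx y hy h
      obtain ⟨x', hx', rfl⟩ := Finset.mem_image.1 hx
      obtain ⟨y', hy', rfl⟩ := Finset.mem_image.1 hy
      exact hind x' hx' y' hy' ⟨(hfst x' hx').trans (hfst y' hy').symm, h⟩)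
    rwa [Finset.card_image_of_injOn hinj] at hle

/-- All pairs of parts of the finite set `𝒬` are made constant. -/
theorem iterate {ι : Type} {p : ℕ} (F : SimpleGraph ι) (a : ℕ) (ha : 2 ≤ a) (P : PSys ι p)
    (hP : P.Ok F a) (𝒬 : Finset (Fin p × Fin p)) :
    ∃ P' : PSys ι p, P'.Ok F a ∧ ∀ L : P'.W → P'.W → ZMod 2, ∃ ψ : P.W → P'.W,
      (∀ u, P'.part (ψ u) = P.part u) ∧ (∀ u v, P.G.Adj u v → P'.G.Adj (ψ u) (ψ v)) ∧
      (∀ c ∈ P.T, ψ ∘ c ∈ P'.T) ∧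
      ∀ q ∈ 𝒬, ∃ b : ZMod 2, ∀ u v, P.part u = q.1 → P.part v = q.2 → P.G.Adj u v →
        L (ψ u) (ψ v) = b := by
  classical
  induction 𝒬 using Finset.induction_on with
  | empty =>
    exact ⟨P, hP, fun L => ⟨id, fun _ => rfl, fun _ _ h => h, fun c hc => hc, by simp⟩⟩
  | insert q 𝒬 hq ih =>
    obtain ⟨P₁, hP₁, h₁⟩ := ih
    by_cases hq' : q.1 = q.2
    · refine ⟨P₁, hP₁, fun L => ?_⟩
      obtain ⟨ψ, h2, h3, h4, h5⟩ := h₁ L
      refine ⟨ψ, h2, h3, h4, ?_⟩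
      intro q₁ hq₁
      rcases Finset.mem_insert.1 hq₁ with rfl | hq₁
      · refine ⟨0, fun u v hu hv h => ?_⟩
        exact absurd (hu.trans (hq'.trans hv.symm)) (hP.hpart u v h)
      · exact h5 q₁ hq₁
    obtain ⟨P₂, hP₂, h₂⟩ := step F a ha P₁ hP₁ q.1 q.2 hq'
    refine ⟨P₂, hP₂, fun L => ?_⟩
    obtain ⟨ψ₂, a2, a3, a4, b, a5⟩ := h₂ L
    obtain ⟨ψ₁, b2, b3, b4, b5⟩ := h₁ fun u v => L (ψ₂ u) (ψ₂ v)
    refine ⟨ψ₂ ∘ ψ₁, fun u => ?_, fun u v h => a3 _ _ (b3 u v h), fun c hc => ?_, ?_⟩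
    · rw [Function.comp_apply, a2, b2]
    · rw [Function.comp_assoc]
      exact a4 _ (b4 c hc)
    · intro q₁ hq₁
      rcases Finset.mem_insert.1 hq₁ with rfl | hq₁
      · refine ⟨b, fun u v hu hv h => ?_⟩
        exact a5 _ _ (by rw [b2, hu]) (by rw [b2, hv]) (b3 u v h)
      · exact b5 q₁ hq₁

theorem tiles {ι : Type} [Finite ι] (F : SimpleGraph ι)
    (hF : ∀ x y z, F.Adj x y → F.Adj y z → F.Adj x z → False) (a : ℕ) (ha : 2 ≤ a)
    (hα : ∀ S : Finset ι, (∀ x ∈ S, ∀ y ∈ S, ¬ F.Adj x y) → S.card ≤ a) :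
    ∃ (W : Type) (_ : Finite W) (G : SimpleGraph W) (T : Set (ι → W)),
      IsTile F G T ∧ OutOne G T ∧ Small G T a ∧
      ∀ L : W → W → ZMod 2, (∀ u v, L u v = L v u) →
        ∃ c ∈ T, ∃ b : ZMod 2, ∀ k l, F.Adj k l → L (c k) (c l) = b := by
  classical
  obtain ⟨p, hp⟩ := ramsey ι
  obtain ⟨P, hP, h⟩ := iterate F a ha (base F p) (base_ok F hF a ha hα p) Finset.univ
  refine ⟨P.W, P.fin, P.G, P.T, ?_, hP.out, hP.small, ?_⟩
  · intro c hc
    refine ⟨?_, hP.tadj c hc⟩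
    have := hP.tinj c hc
    exact this.of_comp
  · intro L hL
    obtain ⟨ψ, h1, h2, h3, h4⟩ := h L
    choose b hb using fun q : Fin p × Fin p => h4 q (Finset.mem_univ _)
    obtain ⟨e, b₀, he⟩ := hp (fun i j => if i ≤ j then b (i, j) else b (j, i)) (by
      intro i j
      rcases lt_trichotomy i j with hij | hij | hij
      · simp [hij.le, not_le.2 hij]
      · simp [hij]
      · simp [hij.le, not_le.2 hij])
    refine ⟨ψ ∘ fun k => (e, k), h3 _ ⟨e, rfl⟩, b₀, fun k l hkl => ?_⟩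
    have hkl' := he k l hkl.ne
    have hadj : (base F p).G.Adj (e, k) (e, l) := ⟨rfl, hkl⟩
    by_cases hle : e k ≤ e l
    · rw [if_pos hle] at hkl'
      rw [← hkl']
      exact hb (e k, e l) (e, k) (e, l) rfl rfl hadj
    · rw [if_neg hle] at hkl'
      rw [← hkl']
      change L (ψ (e, k)) (ψ (e, l)) = _
      rw [hL]
      exact hb (e l, e k) (e, l) (e, k) rfl rfl hadj.symm

end Pool.Agent.InvDiam
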