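import Pool.Agent.InvDiam.Hyp
import Pool.Agent.InvDiam.Emb
import Pool.Agent.InvDiam.Block
import Pool.Agent.InvDiam.Part

/-!
# InvDiam / Core: the combinatorial core
-/

set_option autoImplicit false

namespace Pool.Agent.InvDiam

/-- A triangle-free graph whose independent sets are small. -/
theorem exists_graph (c : ℕ) : ∃ (s a : ℕ) (F : SimpleGraph (Fin s)),
    0 < s ∧ 2 ≤ a ∧ 2 ^ (c + 5) * a ≤ s ∧
    (∀ x y z, F.Adj x y → F.Adj y z → F.Adj x z → False) ∧
    (∀ S : Finset (Fin s), (∀ x ∈ S, ∀ y ∈ S, ¬ F.Adj x y) → S.card ≤ a) := by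
  classical
  obtain ⟨s, 𝓗, hs, hinj, hsp, hbig⟩ := hyp (Fin 2) (2 ^ (c + 6)) Nat.one_le_two_pow
  let F : SimpleGraph (Fin s) :=
    { Adj := fun x y => x ≠ y ∧ ∃ h ∈ 𝓗, x ∈ Set.range h ∧ y ∈ Set.range h
      symm := ⟨fun _ _ h => ⟨h.1.symm, h.2.imp fun _ h' => ⟨h'.1, h'.2.2, h'.2.1⟩⟩⟩
      loopless := ⟨fun _ h => h.1 rfl⟩ }
  -- three points in one range
  have hthree : ∀ h ∈ 𝓗, ∀ x y z, x ∈ Set.range h → y ∈ Set.range h → z ∈ Set.range h →
      x ≠ y → y ≠ z → x ≠ z → False := by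
    rintro h _ _ _ _ ⟨i, rfl⟩ ⟨j, rfl⟩ ⟨k, rfl⟩ h1 h2 h3
    have h1' : i ≠ j := fun h => h1 (by rw [h])
    have h2' : j ≠ k := fun h => h2 (by rw [h])
    have h3' : i ≠ k := fun h => h3 (by rw [h])
    omega
  have hind : ∀ S : Finset (Fin s), (∀ x ∈ S, ∀ y ∈ S, ¬ F.Adj x y) →
      2 ^ (c + 6) * S.card < s := by
    intro S hS
    by_contra hcon
    obtain ⟨h, hh, hU⟩ := hbig S (by omega)
    refine hS _ (hU 0) _ (hU 1) ⟨fun h' => ?_, h, hh, ⟨0, rfl⟩, ⟨1, rfl⟩⟩
    have := hinj h hh h'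
    simp at this
  have hone : 2 ^ (c + 6) < s := by
    have := hind {⟨0, hs⟩} (by
      intro x hx y hy h
      rw [Finset.mem_singleton] at hx hy
      exact h.1 (hx.trans hy.symm))
    simpa using this
  have hpow : 2 ^ (c + 6) = 2 ^ (c + 5) * 2 := by rw [← pow_succ]
  refine ⟨s, max 2 (s / 2 ^ (c + 6)), F, hs, le_max_left _ _, ?_, ?_, ?_⟩
  · rcases le_total 2 (s / 2 ^ (c + 6)) with h | h
    · rw [max_eq_right h]
      calc 2 ^ (c + 5) * (s / 2 ^ (c + 6)) ≤ 2 ^ (c + 6) * (s / 2 ^ (c + 6)) := by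
            refine Nat.mul_le_mul_right _ ?_
            rw [hpow]
            omega
        _ ≤ s := Nat.mul_div_le _ _
    · rw [max_eq_left h, ← hpow]
      exact hone.le
  · rintro x y z ⟨hxy, h1, hh1, hx1, hy1⟩ ⟨hyz, h2, hh2, hy2, hz2⟩ ⟨hxz, h3, hh3, hx3, hz3⟩
    by_cases e12 : h1 = h2
    · subst e12
      exact hthree h1 hh1 x y z hx1 hy1 hz2 hxy hyz hxz
    by_cases e23 : h2 = h3
    · subst e23
      exact hthree h2 hh2 x y z hx3 hy2 hz2 hxy hyz hxz
    by_cases e31 : h3 = h1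
    · subst e31
      exact hthree h3 hh3 x y z hx3 hy1 hz3 hxy hyz hxz
    exact hsp.three h1 hh1 h2 hh2 h3 hh3 e12 e23 e31 y z x hy1 hy2 hz2 hz3 hx3 hx1 hyz
      hxz.symm hxy
  · intro S hS
    refine le_max_of_le_right ?_
    rw [Nat.le_div_iff_mul_le (by positivity), mul_comm]
    exact (hind S hS).le

/-- The vectors of all blocks. -/
theorem seq {m r t : ℕ} (κ : Fin m → Type) [∀ i, Fintype (κ i)]
    (hκ : ∀ i, Fintype.card (κ i) ≤ r) (hm : 4 * (m * r) ≤ 2 ^ t)
    (Λ : ∀ i, κ i → κ i → ZMod 2) (hΛ : ∀ i a b, Λ i a b = Λ i b a)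
    (hemb : ∀ (κ : Type) [Fintype κ], Fintype.card κ ≤ r →
      ∀ used : Finset (Fin t → ZMod 2), 4 * used.card ≤ 2 ^ t →
      ∀ Λ : κ → κ → ZMod 2, (∀ a b, Λ a b = Λ b a) →
      ∃ x : κ → Fin t → ZMod 2, Function.Injective x ∧ (∀ k, x k ∉ used ∧ x k ≠ 0) ∧
        ∀ k l, x k ⬝ᵥ x l = Λ k l) :
    ∃ X : ∀ i, κ i → Fin t → ZMod 2, (∀ i, Function.Injective (X i)) ∧ (∀ i k, X i k ≠ 0) ∧
      (∀ i k l, X i k ⬝ᵥ X i l = Λ i k l) ∧ ∀ i j k l, i ≠ j → X i k ≠ X j l := by
  classical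
  have key : ∀ n : ℕ, n ≤ m → ∃ X : ∀ i, κ i → Fin t → ZMod 2,
      (∀ i : Fin m, (i : ℕ) < n → Function.Injective (X i)) ∧
      (∀ i : Fin m, (i : ℕ) < n → ∀ k, X i k ≠ 0) ∧
      (∀ i : Fin m, (i : ℕ) < n → ∀ k l, X i k ⬝ᵥ X i l = Λ i k l) ∧
      ∀ i j : Fin m, (i : ℕ) < n → (j : ℕ) < n → ∀ k l, i ≠ j → X i k ≠ X j l := by
    intro n
    induction n with
    | zero =>
      intro _
      exact ⟨fun _ _ => 0, by simp, by simp, by simp, by simp⟩
    | succ n ih =>
      intro hn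
      obtain ⟨X, h1, h2, h3, h4⟩ := ih (by omega)
      set i₀ : Fin m := ⟨n, by omega⟩ with hi₀
      set used : Finset (Fin t → ZMod 2) :=
        (Finset.univ.filter fun i : Fin m => (i : ℕ) < n).biUnion fun i =>
          Finset.univ.image (X i) with hused
      have hcard : used.card ≤ m * r := by
        calc used.card ≤ ∑ i ∈ (Finset.univ.filter fun i : Fin m => (i : ℕ) < n),
              (Finset.univ.image (X i)).card := Finset.card_biUnion_le
          _ ≤ ∑ i ∈ (Finset.univ.filter fun i : Fin m => (i : ℕ) < n), r := by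
              refine Finset.sum_le_sum fun i _ => ?_
              exact Finset.card_image_le.trans (by rw [Finset.card_univ]; exact hκ i)
          _ = (Finset.univ.filter fun i : Fin m => (i : ℕ) < n).card * r := by
              rw [Finset.sum_const, smul_eq_mul]
          _ ≤ m * r := by
              refine Nat.mul_le_mul_right _ ?_
              exact (Finset.card_filter_le _ _).trans (by simp)
      obtain ⟨x, hx1, hx2, hx3⟩ := hemb (κ i₀) (hκ i₀) used (by omega) (Λ i₀) (hΛ i₀)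
      have hold : ∀ i : Fin m, (i : ℕ) < n → Function.update X i₀ x i = X i := by
        intro i hi
        refine Function.update_of_ne ?_ _ _
        intro h
        rw [h, hi₀] at hi
        simp at hi
      have hnew : Function.update X i₀ x i₀ = x := Function.update_self _ _ _
      have hcases : ∀ i : Fin m, (i : ℕ) < n + 1 → (i : ℕ) < n ∨ i = i₀ := by
        intro i hi
        rcases Nat.lt_or_ge i n with h | h
        · exact Or.inl h
        · right
          apply Fin.ext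
          simp only [hi₀]
          omega
      have hdisj : ∀ i : Fin m, (i : ℕ) < n → ∀ k l, X i k ≠ x l := by
        intro i hi k l h
        refine (hx2 l).1 ?_
        rw [hused, ← h]
        refine Finset.mem_biUnion.2 ⟨i, by simp [hi], Finset.mem_image_of_mem _ (Finset.mem_univ _)⟩
      refine ⟨Function.update X i₀ x, ?_, ?_, ?_, ?_⟩
      · intro i hi
        rcases hcases i hi with h | rfl
        · rw [hold i h]
          exact h1 i h
        · rw [hnew]
          exact hx1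
      · intro i hi
        rcases hcases i hi with h | rfl
        · rw [hold i h]
          exact h2 i h
        · rw [hnew]
          exact fun k => (hx2 k).2
      · intro i hi
        rcases hcases i hi with h | rfl
        · rw [hold i h]
          exact h3 i h
        · rw [hnew]
          exact hx3
      · intro i j hi hj
        rcases hcases i hi with h | rfl <;> rcases hcases j hj with h' | rfl
        · rw [hold i h, hold j h']
          exact h4 i j h h'
        · rw [hold i h, hnew]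
          exact fun k l _ => hdisj i h k l
        · rw [hold j h', hnew]
          exact fun k l _ => (hdisj j h' l k).symm
        · exact fun k l h => absurd rfl h
  obtain ⟨X, h1, h2, h3, h4⟩ := key m le_rfl
  exact ⟨X, fun i => h1 i i.2, fun i => h2 i i.2, fun i => h3 i i.2, fun i j => h4 i j i.2 j.2⟩

theorem core (c : ℕ) : ∃ (t : ℕ) (V : Type) (_ : Finite V) (G₂ G₃ : SimpleGraph V),
    (∀ π : V → V → ZMod 2, (∀ u v, π u v = π v u) → ∃ x : V → Fin t → ZMod 2,
      (∀ v, x v ≠ 0) ∧ (∀ u v, G₃.Adj u v → x u ≠ x v) ∧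
      (∀ u v, G₂.Adj u v → x u ⬝ᵥ x v = π u v)) ∧
    ¬ ∃ f : V → Fin (t + c) → ZMod 2, ∀ u v, G₂.Adj u v ∨ G₃.Adj u v → f u ≠ f v := by
  classical
  obtain ⟨s, a, F, hs, ha, hsa, htri, hα⟩ := exists_graph c
  haveI : Nonempty (Fin s) := ⟨⟨0, hs⟩⟩
  obtain ⟨W, _, G, T, htile, hout, hsmall, hram⟩ := tiles F htri a ha hα
  haveI : Nonempty W := by
    obtain ⟨c, _, _⟩ := hram (fun _ _ => 0) fun _ _ => rfl
    exact ⟨c ⟨0, hs⟩⟩
  obtain ⟨N, 𝓗, hN, hinj, hsp, hbig⟩ := hyp W s hs
  obtain ⟨G₀, T₀, hsmall₀, hclass⟩ := block F G T a ha htile hout hsmall hram N 𝓗 hinj hsp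
    (by simpa using hbig)
  simp only [Fintype.card_fin] at hclass
  set r := 2 * N / s with hr
  have hrs : r * s ≤ 2 * N := Nat.div_mul_le_self _ _
  have hr1 : 1 ≤ r := by
    obtain ⟨κ, _, cl, Λ, h1, _⟩ := hclass (fun _ _ => 0) fun _ _ => rfl
    have : 0 < Fintype.card κ := Fintype.card_pos_iff.2 ⟨cl ⟨0, hN⟩⟩
    rw [hr, Nat.one_le_div_iff hs]
    calc s = 1 * s := (one_mul s).symm
      _ ≤ Fintype.card κ * s := Nat.mul_le_mul_right _ this
      _ ≤ 2 * N := h1
  obtain ⟨t₀, ht₀⟩ := emb r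
  set t := max t₀ (r + 3) with ht
  have hemb := ht₀ t (le_max_left _ _)
  have h8 : 8 * r ≤ 2 ^ t := by
    calc 8 * r ≤ 8 * 2 ^ r := Nat.mul_le_mul_left _ (Nat.lt_two_pow_self).le
      _ = 2 ^ (r + 3) := by rw [pow_add]; ring
      _ ≤ 2 ^ t := Nat.pow_le_pow_right (by norm_num) (le_max_right _ _)
  set m := 2 ^ t / (4 * r) with hm
  have hm1 : 1 ≤ m := by
    rw [hm, Nat.one_le_div_iff (by omega)]
    omega
  have hmr : 4 * (m * r) ≤ 2 ^ t := by
    have := Nat.div_mul_le_self (2 ^ t) (4 * r)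
    rw [← hm] at this
    calc 4 * (m * r) = m * (4 * r) := by ring
      _ ≤ 2 ^ t := this
  have hmr2 : 2 ^ t < 8 * r * m := by
    have h1 : 2 ^ t < 4 * r * (m + 1) := by
      rw [hm]
      exact Nat.lt_mul_div_succ _ (by omega)
    calc 2 ^ t < 4 * r * (m + 1) := h1
      _ ≤ 4 * r * (2 * m) := Nat.mul_le_mul_left _ (by omega)
      _ = 8 * r * m := by ring
  have hbigN : a * 2 ^ (t + c) < m * N := by
    have h1 : 2 ^ t * s < 16 * (m * N) := by
      calc 2 ^ t * s < 8 * r * m * s := Nat.mul_lt_mul_of_pos_right hmr2 hs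
        _ = 8 * m * (r * s) := by ring
        _ ≤ 8 * m * (2 * N) := Nat.mul_le_mul_left _ hrs
        _ = 16 * (m * N) := by ring
    have h2 : 32 * (a * 2 ^ (t + c)) ≤ 2 ^ t * s := by
      calc 32 * (a * 2 ^ (t + c)) = 2 ^ t * (2 ^ (c + 5) * a) := by
            rw [pow_add, pow_add]
            ring
        _ ≤ 2 ^ t * s := Nat.mul_le_mul_left _ hsa
    omega
  refine ⟨t, Fin m × Fin N, inferInstance,
    { Adj := fun u v => u.1 = v.1 ∧ G₀.Adj u.2 v.2
      symm := ⟨fun _ _ h => ⟨h.1.symm, h.2.symm⟩⟩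
      loopless := ⟨fun _ h => h.2.ne rfl⟩ },
    { Adj := fun u v => u.1 ≠ v.1 ∨ (u.2 ≠ v.2 ∧ ¬ Related T₀ u.2 v.2)
      symm := ⟨fun _ _ h => h.imp (fun h => h.symm) fun h => ⟨h.1.symm, fun h' =>
        h.2 (h'.imp fun _ h'' => ⟨h''.1, h''.2.2, h''.2.1⟩)⟩⟩
      loopless := ⟨fun _ h => h.elim (fun h => h rfl) fun h => h.1 rfl⟩ }, ?_, ?_⟩
  · intro π hπ
    have hcl := fun i : Fin m => hclass (fun x y => π (i, x) (i, y)) fun x y => hπ _ _
    choose κ fκ cl Λ h1 h2 h3 h4 using hcl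
    obtain ⟨X, hX1, hX2, hX3, hX4⟩ := seq κ
      (fun i => by rw [hr]; exact (Nat.le_div_iff_mul_le hs).2 (h1 i)) hmr Λ h2 hemb
    refine ⟨fun v => X v.1 (cl v.1 v.2), fun v => hX2 _ _, ?_, ?_⟩
    · rintro ⟨i, x⟩ ⟨j, y⟩ h hxy
      simp only at h hxy
      by_cases hij : i = j
      · subst hij
        rcases h with h | h
        · exact h rfl
        · exact h.2 (h3 i x y (hX1 i hxy) h.1)
      · exact hX4 i j _ _ hij hxy
    · rintro ⟨i, x⟩ ⟨j, y⟩ ⟨h, h'⟩
      simp only at h h'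
      subst h
      simp only
      rw [hX3]
      exact (h4 i x y h').symm
  · rintro ⟨f, hf⟩
    have hfib : ∀ y ∈ Finset.univ.image f, (Finset.univ.filter fun v => f v = y).card ≤ a := by
      intro y _
      rcases (Finset.univ.filter fun v => f v = y).eq_empty_or_nonempty with h0 | ⟨⟨i, x₀⟩, hx₀⟩
      · rw [h0]
        simp
      have hx₀' : f (i, x₀) = y := by simpa using hx₀
      have hfst : ∀ v : Fin m × Fin N, f v = y → v.1 = i := by
        intro v hv
        by_contra hne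
        exact hf v (i, x₀) (Or.inr (Or.inl hne)) (hv.trans hx₀'.symm)
      have hinj2 : Set.InjOn (Prod.snd : Fin m × Fin N → Fin N)
          ((Finset.univ.filter fun v => f v = y : Finset (Fin m × Fin N)) : Set _) := by
        intro u hu v hv huv
        simp only [Finset.coe_filter, Finset.mem_univ, true_and, Set.mem_ofPred_eq] at hu hv
        exact Prod.ext ((hfst u hu).trans (hfst v hv).symm) huv
      rw [← Finset.card_image_of_injOn hinj2]
      refine hsmall₀ _ ?_ ?_
      · intro p hp q hq hpq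
        obtain ⟨u, hu, rfl⟩ := Finset.mem_image.1 hp
        obtain ⟨v, hv, rfl⟩ := Finset.mem_image.1 hq
        simp only [Finset.mem_filter, Finset.mem_univ, true_and] at hu hv
        by_contra hrel
        exact hf u v (Or.inr (Or.inr ⟨hpq, hrel⟩)) (hu.trans hv.symm)
      · intro p hp q hq hpq
        obtain ⟨u, hu, rfl⟩ := Finset.mem_image.1 hp
        obtain ⟨v, hv, rfl⟩ := Finset.mem_image.1 hq
        simp only [Finset.mem_filter, Finset.mem_univ, true_and] at hu hv
        exact hf u v (Or.inl ⟨(hfst u hu).trans (hfst v hv).symm, hpq⟩) (hu.trans hv.symm)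
    have hcount := Finset.card_le_mul_card_image (f := f) Finset.univ a hfib
    have himg : (Finset.univ.image f).card ≤ 2 ^ (t + c) := by
      calc (Finset.univ.image f).card ≤ Fintype.card (Fin (t + c) → ZMod 2) :=
            Finset.card_le_univ _
        _ = 2 ^ (t + c) := by simp [ZMod.card]
    have hV : (Finset.univ : Finset (Fin m × Fin N)).card = m * N := by simp
    rw [hV] at hcount
    have := hcount.trans (Nat.mul_le_mul_left a himg)
    omega

end Pool.Agent.InvDiam
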