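import Mathlib

/-!
# InvDiam / Defs: definitions

MP_e69fdc_co: the inversion diameter of subdivisions.
-/

set_option autoImplicit false

namespace Pool.Agent.InvDiam

/-! ### Orientations, inversions, the inversion diameter -/

/-- An orientation of a simple graph `G`: every edge gets exactly one of its two directions. -/
@[ext]
structure Orient {V : Type} (G : SimpleGraph V) where
  /-- `arc u v`: there is an arc from `u` to `v`. -/
  arc : V → V → Prop
  adj : ∀ u v, arc u v → G.Adj u v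
  total : ∀ u v, G.Adj u v → arc u v ∨ arc v u
  asymm : ∀ u v, arc u v → ¬ arc v u

/-- The inversion of the vertex set `X`: the arcs with both ends in `X` are reversed, the other arcs
are kept. -/
def Orient.invert {V : Type} {G : SimpleGraph V} (O : Orient G) (X : Set V) : Orient G where
  arc u v := (u ∈ X ∧ v ∈ X ∧ O.arc v u) ∨ (¬ (u ∈ X ∧ v ∈ X) ∧ O.arc u v)
  adj u v h := by
    rcases h with ⟨_, _, h⟩ | ⟨_, h⟩
    · exact (O.adj v u h).symm
    · exact O.adj u v h
  total u v h := by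
    by_cases hX : u ∈ X ∧ v ∈ X
    · rcases O.total u v h with h | h
      · exact Or.inr (Or.inl ⟨hX.2, hX.1, h⟩)
      · exact Or.inl (Or.inl ⟨hX.1, hX.2, h⟩)
    · rcases O.total u v h with h | h
      · exact Or.inl (Or.inr ⟨hX, h⟩)
      · exact Or.inr (Or.inr ⟨fun h' => hX ⟨h'.2, h'.1⟩, h⟩)
  asymm u v h h' := by
    rcases h with ⟨h1, h2, h⟩ | ⟨h1, h⟩
    · rcases h' with ⟨h3, h4, h'⟩ | ⟨h3, h'⟩
      · exact O.asymm _ _ h h'
      · exact h3 ⟨h2, h1⟩
    · rcases h' with ⟨h3, h4, h'⟩ | ⟨h3, h'⟩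
      · exact h1 ⟨h4, h3⟩
      · exact O.asymm _ _ h h'

/-- `O₂` is obtained from `O₁` by `k` successive inversions. -/
def Reach {V : Type} {G : SimpleGraph V} (O₁ O₂ : Orient G) (k : ℕ) : Prop :=
  ∃ L : List (Set V), L.length = k ∧ L.foldl Orient.invert O₁ = O₂

/-- The inversion distance of two orientations of `G`. -/
noncomputable def invDist {V : Type} {G : SimpleGraph V} (O₁ O₂ : Orient G) : ℕ :=
  sInf {k | Reach O₁ O₂ k}

/-- The inversion diameter of `G`: the largest inversion distance of two orientations of `G`. -/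
noncomputable def invDiam {V : Type} (G : SimpleGraph V) : ℕ :=
  sSup (Set.range fun p : Orient G × Orient G => invDist p.1 p.2)

/-- `H` is a subdivision of `G`: the vertices of `G` are vertices of `H` (by the injection `φ`), every
edge `uv` of `G` is replaced by a path `P u v` of `H` from `φ u` to `φ v`, the inner vertices of these
paths are not vertices of `G`, the paths of two different edges of `G` have no inner vertex in common,
and every vertex and every edge of `H` belongs to `G` or to one of these paths. -/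
def IsSubdivision {V W : Type} (G : SimpleGraph V) (H : SimpleGraph W) : Prop :=
  ∃ (φ : V → W) (P : ∀ u v : V, G.Adj u v → H.Walk (φ u) (φ v)),
    Function.Injective φ ∧
    (∀ u v h, (P u v h).IsPath) ∧
    (∀ u v (h : G.Adj u v), P v u h.symm = (P u v h).reverse) ∧
    (∀ u v h x, φ x ∈ (P u v h).support → x = u ∨ x = v) ∧
    (∀ u v h u' v' h' w, s(u, v) ≠ s(u', v') → w ∈ (P u v h).support →
      w ∈ (P u' v' h').support → w ∈ Set.range φ) ∧
    (∀ w : W, w ∈ Set.range φ ∨ ∃ u v h, w ∈ (P u v h).support) ∧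
    (∀ a b : W, H.Adj a b → ∃ u v h, s(a, b) ∈ (P u v h).edges)

/-! ### Systems of tiles -/

/-- `x` and `y` lie in a common tile. -/
def Related {ι W : Type} (T : Set (ι → W)) (x y : W) : Prop :=
  ∃ c ∈ T, x ∈ Set.range c ∧ y ∈ Set.range c

/-- Sets of vertices which are pairwise in a common tile and independent in `G` have at most `a`
elements. -/
def Small {ι W : Type} (G : SimpleGraph W) (T : Set (ι → W)) (a : ℕ) : Prop :=
  ∀ S : Finset W, (∀ x ∈ S, ∀ y ∈ S, x ≠ y → Related T x y) →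
    (∀ x ∈ S, ∀ y ∈ S, ¬ G.Adj x y) → S.card ≤ a

/-- The tiles are induced copies of `F`. -/
def IsTile {ι W : Type} (F : SimpleGraph ι) (G : SimpleGraph W) (T : Set (ι → W)) : Prop :=
  ∀ c ∈ T, Function.Injective c ∧ ∀ k l, G.Adj (c k) (c l) ↔ F.Adj k l

/-- A vertex outside a tile has at most one neighbour in the tile. -/
def OutOne {ι W : Type} (G : SimpleGraph W) (T : Set (ι → W)) : Prop :=
  ∀ c ∈ T, ∀ v, v ∉ Set.range c → ∀ k l, G.Adj v (c k) → G.Adj v (c l) → k = l

/-! ### Sparse families -/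

/-- The family `𝓗` of maps has no cycles of length `2`, `3`, `4`. -/
structure Sparse {A V : Type} (𝓗 : Set (A → V)) : Prop where
  two : ∀ h₁ ∈ 𝓗, ∀ h₂ ∈ 𝓗, h₁ ≠ h₂ → ∀ x y, x ∈ Set.range h₁ → x ∈ Set.range h₂ →
    y ∈ Set.range h₂ → y ∈ Set.range h₁ → x = y
  three : ∀ h₁ ∈ 𝓗, ∀ h₂ ∈ 𝓗, ∀ h₃ ∈ 𝓗, h₁ ≠ h₂ → h₂ ≠ h₃ → h₃ ≠ h₁ → ∀ x y z,
    x ∈ Set.range h₁ → x ∈ Set.range h₂ → y ∈ Set.range h₂ → y ∈ Set.range h₃ →
    z ∈ Set.range h₃ → z ∈ Set.range h₁ → x ≠ y → y ≠ z → z ≠ x → False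
  four : ∀ h₁ ∈ 𝓗, ∀ h₂ ∈ 𝓗, ∀ h₃ ∈ 𝓗, ∀ h₄ ∈ 𝓗, h₁ ≠ h₂ → h₂ ≠ h₃ → h₃ ≠ h₄ → h₄ ≠ h₁ →
    ∀ x y z w, x ∈ Set.range h₁ → x ∈ Set.range h₂ → y ∈ Set.range h₂ → y ∈ Set.range h₃ →
    z ∈ Set.range h₃ → z ∈ Set.range h₄ → w ∈ Set.range h₄ → w ∈ Set.range h₁ →
    x ≠ y → y ≠ z → z ≠ w → w ≠ x → False

/-! ### Partite systems -/

/-- A partite system: a finite graph with `p` parts and a set of tiles. -/
structure PSys (ι : Type) (p : ℕ) where
  /-- the vertices -/
  W : Type
  fin : Finite W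
  /-- the part of a vertex -/
  part : W → Fin p
  /-- the graph -/
  G : SimpleGraph W
  /-- the tiles -/
  T : Set (ι → W)

/-- The invariants of the partite construction. -/
structure PSys.Ok {ι : Type} {p : ℕ} (F : SimpleGraph ι) (a : ℕ) (P : PSys ι p) : Prop where
  hpart : ∀ u v, P.G.Adj u v → P.part u ≠ P.part v
  tinj : ∀ c ∈ P.T, Function.Injective (P.part ∘ c)
  tadj : ∀ c ∈ P.T, ∀ k l, P.G.Adj (c k) (c l) ↔ F.Adj k l
  etile : ∀ u v, P.G.Adj u v → Related P.T u v
  tri : ∀ x y z, P.G.Adj x y → P.G.Adj y z → P.G.Adj x z → False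
  out : OutOne P.G P.T
  small : Small P.G P.T a

end Pool.Agent.InvDiam
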