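import Pool.Agent.InvDiam.Defs

/-!
# InvDiam / Hyp: sparse families of injections which hit every large set

PROOF (greedy, by averaging).  `r = |A| ≥ 1`, `q = 2 K^r`, `D = 2 r^2 q^2`, `b = (r D + 1)^3`,
`N = 2 q r^2 b + 1`. For a finite family `𝓗` of maps `A → Fin N` let `J x y` mean: `x = y` or
some `h ∈ 𝓗` has `x` and `y` in its range; `deg x` = the number of `h ∈ 𝓗` with `x` in the range.
Invariants after `m ≤ q N` steps: `|𝓗| ≤ m`; all `h ∈ 𝓗` injective; `deg x ≤ D`; `Sparse 𝓗`; and the set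
`𝓤` of all `U ⊆ Fin N` with `N ≤ K |U|` which contain no range of an `h ∈ 𝓗` has
`|𝓤| ≤ 2^N (1 - 1/q)^m`. Step (if `𝓤` is empty we are done). Call `h : A → Fin N` bad if there are `a ≠ a'` with
`J³ (h a) (h a')` (that is `J (h a) u`, `J u v`, `J v (h a')` for some `u, v`; this includes non-injective `h`) or an `a`
with `deg (h a) ≥ D`. There are at most `N (r D + 1)^3` pairs with `J³`, so at most `r^2 N b N^(r-2)` maps of the first
kind (the maps with two prescribed values: `N^(r-2)`), and at most `r (r |𝓗| / D) N^(r-1) ≤ r^2 q N^r / D` of the second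
(`∑_x deg x ≤ r |𝓗|`). Each is at most `N^r / (2 q)`. A set `U ∈ 𝓤` contains the range of
`|U|^r ≥ N^r / K^r = 2 N^r / q` maps, at least `N^r / q` of them not bad. Double counting: some map `h` which is not
bad has its range in at least `|𝓤| / q` of the sets `U ∈ 𝓤`. Add it.
The new family is sparse: a cycle of length `2, 3, 4` uses `h`, and two distinct points in the range of `h` are then
joined by at most three members of the old family (if `h` is used twice in a 4-cycle: by one), against `J³`.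
After `m = q N` steps `2^N (1 - 1/q)^(q N) < 1` (`(1 - 1/q)^q ≤ exp (-1) < 1/2`), so `𝓤 = ∅`.
-/

set_option autoImplicit false

namespace Pool.Agent.InvDiam

open Finset

/-- `x` is in the range of `h` -/
def Hits {A V : Type} (h : A → V) (x : V) : Prop := x ∈ Set.range h

open Classical in
/-- the degree of a point -/
noncomputable def hdeg {A V : Type} (H : Finset (A → V)) (x : V) : ℕ :=
  (H.filter fun h => Hits h x).card

/-- equal or in the range of a common member -/
def JR {A V : Type} (H : Finset (A → V)) (x y : V) : Prop :=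
  x = y ∨ ∃ h ∈ H, x ∈ Set.range h ∧ y ∈ Set.range h

/-- three steps -/
def J3 {A V : Type} (H : Finset (A → V)) (x y : V) : Prop :=
  ∃ u v, JR H x u ∧ JR H u v ∧ JR H v y

theorem JR.mk {A V : Type} {H : Finset (A → V)} {h : A → V} (hh : h ∈ H) {x y : V}
    (hx : x ∈ Set.range h) (hy : y ∈ Set.range h) : JR H x y := Or.inr ⟨h, hh, hx, hy⟩

/-- adding a map without close pairs keeps the family sparse -/
theorem sparse_insert {A V : Type} [DecidableEq (A → V)] {H : Finset (A → V)}
    (hH : Sparse (H : Set (A → V)))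
    {h : A → V} (hh : ∀ x ∈ Set.range h, ∀ y ∈ Set.range h, x ≠ y → ¬ J3 H x y) :
    Sparse ((insert h H : Finset (A → V)) : Set (A → V)) := by
  have h1 : ∀ g ∈ H, ∀ x ∈ Set.range h, ∀ y ∈ Set.range h, x ∈ Set.range g → y ∈ Set.range g →
      x = y := by
    intro g hg x hx y hy hxg hyg
    by_contra hne
    exact hh x hx y hy hne ⟨y, y, JR.mk hg hxg hyg, Or.inl rfl, Or.inl rfl⟩
  have h2 : ∀ g₁ ∈ H, ∀ g₂ ∈ H, ∀ x ∈ Set.range h, ∀ z ∈ Set.range h, ∀ y, x ∈ Set.range g₁ →
      y ∈ Set.range g₁ → y ∈ Set.range g₂ → z ∈ Set.range g₂ → x = z := by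
    intro g₁ hg₁ g₂ hg₂ x hx z hz y a1 a2 a3 a4
    by_contra hne
    exact hh x hx z hz hne ⟨y, z, JR.mk hg₁ a1 a2, JR.mk hg₂ a3 a4, Or.inl rfl⟩
  have h3 : ∀ g₁ ∈ H, ∀ g₂ ∈ H, ∀ g₃ ∈ H, ∀ x ∈ Set.range h, ∀ w ∈ Set.range h, ∀ y z,
      x ∈ Set.range g₁ → y ∈ Set.range g₁ → y ∈ Set.range g₂ → z ∈ Set.range g₂ →
      z ∈ Set.range g₃ → w ∈ Set.range g₃ → x = w := by
    intro g₁ hg₁ g₂ hg₂ g₃ hg₃ x hx w hw y z a1 a2 a3 a4 a5 a6
    by_contra hne
    exact hh x hx w hw hne ⟨y, z, JR.mk hg₁ a1 a2, JR.mk hg₂ a3 a4, JR.mk hg₃ a5 a6⟩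
  have hmem : ∀ g, g ∈ ((insert h H : Finset (A → V)) : Set (A → V)) → g = h ∨ g ∈ H := by
    intro g hg
    exact Finset.mem_insert.1 (Finset.mem_coe.1 hg)
  refine ⟨?_, ?_, ?_⟩
  · intro h₁ m₁ h₂ m₂ hne x y a1 a2 a3 a4
    rcases hmem _ m₁ with r₁ | k₁
    · rcases hmem _ m₂ with r₂ | k₂
      · exact absurd (r₁.trans r₂.symm) hne
      · subst r₁
        exact h1 h₂ k₂ x a1 y a4 a2 a3
    · rcases hmem _ m₂ with r₂ | k₂
      · subst r₂
        exact h1 h₁ k₁ x a2 y a3 a1 a4
      · exact hH.two h₁ k₁ h₂ k₂ hne x y a1 a2 a3 a4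
  · intro h₁ m₁ h₂ m₂ h₃ m₃ n1 n2 n3 x y z a1 a2 a3 a4 a5 a6 e1 e2 e3
    rcases hmem _ m₁ with r₁ | k₁
    · have k₂ : h₂ ∈ H := (hmem _ m₂).resolve_left fun e => n1 (r₁.trans e.symm)
      have k₃ : h₃ ∈ H := (hmem _ m₃).resolve_left fun e => n3 (e.trans r₁.symm)
      subst r₁
      exact e3 (h2 h₂ k₂ h₃ k₃ x a1 z a6 y a2 a3 a4 a5).symm
    rcases hmem _ m₂ with r₂ | k₂
    · have k₃ : h₃ ∈ H := (hmem _ m₃).resolve_left fun e => n2 (r₂.trans e.symm)
      subst r₂
      exact e1 (h2 h₁ k₁ h₃ k₃ x a2 y a3 z a1 a6 a5 a4)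
    rcases hmem _ m₃ with r₃ | k₃
    · subst r₃
      exact e2 (h2 h₂ k₂ h₁ k₁ y a4 z a5 x a3 a2 a1 a6)
    · exact hH.three h₁ k₁ h₂ k₂ h₃ k₃ n1 n2 n3 x y z a1 a2 a3 a4 a5 a6 e1 e2 e3
  · intro h₁ m₁ h₂ m₂ h₃ m₃ h₄ m₄ n1 n2 n3 n4 x y z w a1 a2 a3 a4 a5 a6 a7 a8 e1 e2 e3 e4
    rcases hmem _ m₁ with r₁ | k₁
    · have k₂ : h₂ ∈ H := (hmem _ m₂).resolve_left fun e => n1 (r₁.trans e.symm)
      have k₄ : h₄ ∈ H := (hmem _ m₄).resolve_left fun e => n4 (e.trans r₁.symm)
      rcases hmem _ m₃ with r₃ | k₃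
      · subst r₁
        rw [r₃] at a4
        exact e1 (h1 h₂ k₂ x a1 y a4 a2 a3)
      · subst r₁
        exact e4 (h3 h₂ k₂ h₃ k₃ h₄ k₄ x a1 w a8 y z a2 a3 a4 a5 a6 a7).symm
    rcases hmem _ m₂ with r₂ | k₂
    · have k₃ : h₃ ∈ H := (hmem _ m₃).resolve_left fun e => n2 (r₂.trans e.symm)
      rcases hmem _ m₄ with r₄ | k₄
      · subst r₂
        rw [r₄] at a7
        exact e4 (h1 h₁ k₁ w a7 x a2 a8 a1)
      · subst r₂
        exact e1 (h3 h₁ k₁ h₄ k₄ h₃ k₃ x a2 y a3 w z a1 a8 a7 a6 a5 a4)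
    rcases hmem _ m₃ with r₃ | k₃
    · have k₄ : h₄ ∈ H := (hmem _ m₄).resolve_left fun e => n3 (r₃.trans e.symm)
      subst r₃
      exact e2 (h3 h₂ k₂ h₁ k₁ h₄ k₄ y a4 z a5 x w a3 a2 a1 a8 a7 a6)
    rcases hmem _ m₄ with r₄ | k₄
    · subst r₄
      exact e3 (h3 h₃ k₃ h₂ k₂ h₁ k₁ z a6 w a7 y x a5 a4 a3 a2 a1 a8)
    · exact hH.four h₁ k₁ h₂ k₂ h₃ k₃ h₄ k₄ n1 n2 n3 n4 x y z w a1 a2 a3 a4 a5 a6 a7 a8 e1 e2 e3 e4

section count

variable {A V : Type} [Fintype A] [Fintype V]

open Classical in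
theorem card_JR (H : Finset (A → V)) (x : V) :
    (univ.filter fun y => JR H x y).card ≤ 1 + hdeg H x * Fintype.card A := by
  have hsub : (univ.filter fun y => JR H x y) ⊆
      insert x ((H.filter fun h => Hits h x).biUnion fun h => univ.image h) := by
    intro y hy
    rw [mem_filter] at hy
    rw [mem_insert, mem_biUnion]
    rcases hy.2 with h | ⟨h, hh, h1, a, ha⟩
    · exact Or.inl h.symm
    · exact Or.inr ⟨h, mem_filter.2 ⟨hh, h1⟩, mem_image.2 ⟨a, mem_univ _, ha⟩⟩
  refine (card_le_card hsub).trans ((card_insert_le _ _).trans ?_)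
  rw [add_comm 1]
  apply Nat.add_le_add_right
  unfold hdeg
  apply card_biUnion_le_card_mul
  intro h _
  exact card_image_le

open Classical in
theorem card_J3 (H : Finset (A → V)) {D : ℕ} (hD : ∀ x, hdeg H x ≤ D) (x : V) :
    (univ.filter fun y => J3 H x y).card ≤ (1 + D * Fintype.card A) ^ 3 := by
  have hJ : ∀ x, (univ.filter fun y => JR H x y).card ≤ 1 + D * Fintype.card A := by
    intro x
    refine (card_JR H x).trans ?_
    apply Nat.add_le_add_left
    exact Nat.mul_le_mul_right _ (hD x)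
  have hsub : (univ.filter fun y => J3 H x y) ⊆ (univ.filter fun u => JR H x u).biUnion fun u =>
      (univ.filter fun v => JR H u v).biUnion fun v => univ.filter fun y => JR H v y := by
    intro y hy
    rw [mem_filter] at hy
    obtain ⟨-, u, v, h1, h2, h3⟩ := hy
    rw [mem_biUnion]
    refine ⟨u, mem_filter.2 ⟨mem_univ _, h1⟩, ?_⟩
    rw [mem_biUnion]
    exact ⟨v, mem_filter.2 ⟨mem_univ _, h2⟩, mem_filter.2 ⟨mem_univ _, h3⟩⟩
  refine (card_le_card hsub).trans ?_
  have h1 : ∀ u, ((univ.filter fun v => JR H u v).biUnion fun v =>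
      univ.filter fun y => JR H v y).card ≤ (1 + D * Fintype.card A) * (1 + D * Fintype.card A) := by
    intro u
    refine (card_biUnion_le_card_mul _ _ _ fun v _ => hJ v).trans ?_
    exact Nat.mul_le_mul_right _ (hJ u)
  refine (card_biUnion_le_card_mul _ _ _ fun u _ => h1 u).trans ?_
  refine (Nat.mul_le_mul_right _ (hJ x)).trans (le_of_eq ?_)
  ring

open Classical in
theorem card_fiber (a : A) (s : Finset (A → V)) (S : ({x // x ≠ a} → V) → Finset V) {b : ℕ}
    (h1 : ∀ h ∈ s, h a ∈ S fun x => h x) (h2 : ∀ g, (S g).card ≤ b) :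
    s.card ≤ b * Fintype.card V ^ (Fintype.card A - 1) := by
  have hc : (univ : Finset ({x // x ≠ a} → V)).card =
      Fintype.card V ^ (Fintype.card A - 1) := by
    rw [card_univ, Fintype.card_fun]
    congr 1
    exact Set.card_ne_eq a
  rw [← hc]
  apply card_le_mul_card_image_of_maps_to (f := fun (h : A → V) (x : {x // x ≠ a}) => h x)
    (fun _ _ => mem_univ _)
  intro g _
  refine le_trans ?_ (h2 g)
  apply card_le_card_of_injOn (fun h : A → V => h a)
  · intro h hh
    have hh' := (mem_filter.1 (mem_coe.1 hh))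
    have := h1 h hh'.1
    rw [hh'.2] at this
    exact this
  · intro h hh h' hh' he
    have e1 := (mem_filter.1 (mem_coe.1 hh)).2
    have e2 := (mem_filter.1 (mem_coe.1 hh')).2
    funext x
    by_cases hx : x = a
    · rw [hx]
      exact he
    · exact congrFun (e1.trans e2.symm) ⟨x, hx⟩

open Classical in
theorem card_bad1 (H : Finset (A → V)) {b : ℕ}
    (hb : ∀ x, (univ.filter fun y => J3 H x y).card ≤ b) :
    (univ.filter fun h : A → V => ∃ a a', a ≠ a' ∧ J3 H (h a) (h a')).card ≤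
      Fintype.card A ^ 2 * (b * Fintype.card V ^ (Fintype.card A - 1)) := by
  have hsub : (univ.filter fun h : A → V => ∃ a a', a ≠ a' ∧ J3 H (h a) (h a')) ⊆
      (univ : Finset (A × A)).biUnion fun p =>
        univ.filter fun h : A → V => p.1 ≠ p.2 ∧ J3 H (h p.1) (h p.2) := by
    intro h hh
    obtain ⟨-, a, a', h1, h2⟩ := mem_filter.1 hh
    exact mem_biUnion.2 ⟨(a, a'), mem_univ _, mem_filter.2 ⟨mem_univ _, h1, h2⟩⟩
  refine (card_le_card hsub).trans ?_
  have hc : (univ : Finset (A × A)).card = Fintype.card A ^ 2 := by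
    rw [card_univ, Fintype.card_prod, sq]
  rw [← hc]
  apply card_biUnion_le_card_mul
  rintro ⟨a, a'⟩ _
  by_cases hne : a = a'
  · have : (univ.filter fun h : A → V => a ≠ a' ∧ J3 H (h a) (h a')) = ∅ := by
      apply filter_eq_empty_iff.2
      intro h _ h'
      exact h'.1 hne
    change (univ.filter fun h : A → V => a ≠ a' ∧ J3 H (h a) (h a')).card ≤ _
    rw [this, card_empty]
    exact Nat.zero_le _
  · apply card_fiber a' _ (fun g => univ.filter fun y => J3 H (g ⟨a, hne⟩) y)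
    · intro h hh
      exact mem_filter.2 ⟨mem_univ _, (mem_filter.1 hh).2.2⟩
    · intro g
      exact hb _

open Classical in
theorem card_bad2 (T : Finset V) :
    (univ.filter fun h : A → V => ∃ a, h a ∈ T).card ≤
      Fintype.card A * (T.card * Fintype.card V ^ (Fintype.card A - 1)) := by
  have hsub : (univ.filter fun h : A → V => ∃ a, h a ∈ T) ⊆
      (univ : Finset A).biUnion fun a => univ.filter fun h : A → V => h a ∈ T := by
    intro h hh
    obtain ⟨-, a, h1⟩ := mem_filter.1 hh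
    exact mem_biUnion.2 ⟨a, mem_univ _, mem_filter.2 ⟨mem_univ _, h1⟩⟩
  refine (card_le_card hsub).trans ?_
  rw [← card_univ (α := A)]
  apply card_biUnion_le_card_mul
  intro a _
  exact card_fiber a _ (fun _ => T) (fun h hh => (mem_filter.1 hh).2) (fun _ => le_rfl)

open Classical in
theorem card_high (H : Finset (A → V)) (D : ℕ) :
    D * (univ.filter fun x => D ≤ hdeg H x).card ≤ Fintype.card A * H.card := by
  calc D * (univ.filter fun x => D ≤ hdeg H x).card
      = ∑ _x ∈ univ.filter fun x => D ≤ hdeg H x, D := by rw [sum_const, smul_eq_mul, mul_comm]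
    _ ≤ ∑ x ∈ univ.filter fun x => D ≤ hdeg H x, hdeg H x :=
        sum_le_sum fun x hx => (mem_filter.1 hx).2
    _ ≤ ∑ x, hdeg H x := sum_le_sum_of_subset (filter_subset _ _)
    _ = ∑ x, ∑ h ∈ H, if Hits h x then 1 else 0 := by
        apply sum_congr rfl
        intro x _
        rw [hdeg, card_filter]
    _ = ∑ h ∈ H, ∑ x, if Hits h x then 1 else 0 := sum_comm
    _ ≤ ∑ _h ∈ H, Fintype.card A := by
        apply sum_le_sum
        intro h _
        rw [← card_filter]
        have : (univ.filter fun x => Hits h x) ⊆ univ.image h := by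
          intro x hx
          obtain ⟨a, ha⟩ := (mem_filter.1 hx).2
          exact mem_image.2 ⟨a, mem_univ _, ha⟩
        exact (card_le_card this).trans card_image_le
    _ = Fintype.card A * H.card := by rw [sum_const, smul_eq_mul, mul_comm]

end count

section main

variable {A : Type} [Fintype A] {N : ℕ}

open Classical in
/-- the sets which are large and not hit -/
noncomputable def UU (K : ℕ) (H : Finset (A → Fin N)) : Finset (Finset (Fin N)) :=
  univ.filter fun U => N ≤ K * U.card ∧ ∀ h ∈ H, ¬ ∀ a, h a ∈ U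

open Classical in
theorem hyp_step [Nonempty A] {K : ℕ} {q D : ℕ} (hq : q = 2 * K ^ Fintype.card A)
    (hD : D = 2 * Fintype.card A ^ 2 * q ^ 2)
    (hN : 2 * q * Fintype.card A ^ 2 * (1 + D * Fintype.card A) ^ 3 ≤ N) (hN0 : 0 < N)
    {H : Finset (A → Fin N)} (hcard : H.card ≤ q * N) (hdg : ∀ x, hdeg H x ≤ D)
    (hU : (UU K H).Nonempty) :
    ∃ h : A → Fin N, (∀ a a', a ≠ a' → ¬ J3 H (h a) (h a')) ∧ (∀ a, hdeg H (h a) < D) ∧
      (UU K H).card ≤ q * ((UU K H).filter fun U => ∀ a, h a ∈ U).card := by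
  set r := Fintype.card A with hr
  have hr1 : 1 ≤ r := Fintype.card_pos
  set b := (1 + D * r) ^ 3 with hb
  set T : Finset (Fin N) := univ.filter fun x => D ≤ hdeg H x with hT
  set Bad : Finset (A → Fin N) := (univ.filter fun h : A → Fin N => ∃ a a', a ≠ a' ∧
    J3 H (h a) (h a')) ∪ (univ.filter fun h : A → Fin N => ∃ a, h a ∈ T) with hBad
  have hK0 : 0 < K := by
    rcases Nat.eq_zero_or_pos K with h0 | h0
    · exfalso
      obtain ⟨U, hU'⟩ := hU
      have := (mem_filter.1 hU').2.1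
      rw [h0, zero_mul] at this
      omega
    · exact h0
  have hq0 : 0 < q := by
    rw [hq]
    positivity
  have hpow : N ^ r = N ^ (r - 1) * N := by
    rw [← pow_succ]
    congr 1
    omega
  have c1 := card_bad1 H (b := b) (card_J3 H hdg)
  have c2 : (univ.filter fun h : A → Fin N => ∃ a, h a ∈ T).card ≤
      Fintype.card A * (T.card * Fintype.card (Fin N) ^ (Fintype.card A - 1)) := by
    convert card_bad2 (A := A) T
  have c3 := card_high H D
  rw [Fintype.card_fin, ← hr] at c1 c2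
  rw [← hr, ← hT] at c3
  have c4 : 2 * q * r * T.card ≤ N := by
    have h1 : D * T.card ≤ r * (q * N) := c3.trans (Nat.mul_le_mul_left _ hcard)
    rw [hD] at h1
    have h2 : (r * q) * (2 * q * r * T.card) ≤ (r * q) * N := by
      calc (r * q) * (2 * q * r * T.card) = 2 * r ^ 2 * q ^ 2 * T.card := by ring
        _ ≤ r * (q * N) := h1
        _ = (r * q) * N := by ring
    exact Nat.le_of_mul_le_mul_left h2 (by positivity)
  have c5 : q * Bad.card ≤ N ^ r := by
    have h1 : Bad.card ≤ r ^ 2 * (b * N ^ (r - 1)) + r * (T.card * N ^ (r - 1)) :=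
      (card_union_le _ _).trans (Nat.add_le_add c1 c2)
    have h2 : 2 * (q * Bad.card) ≤ 2 * N ^ r := by
      calc 2 * (q * Bad.card)
          ≤ 2 * (q * (r ^ 2 * (b * N ^ (r - 1)) + r * (T.card * N ^ (r - 1)))) := by gcongr
        _ = N ^ (r - 1) * (2 * q * r ^ 2 * b) + N ^ (r - 1) * (2 * q * r * T.card) := by ring
        _ ≤ N ^ (r - 1) * N + N ^ (r - 1) * N := by gcongr
        _ = 2 * N ^ r := by rw [hpow]; ring
    omega
  -- the number of maps into a large set which are not bad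
  have c6 : ∀ U ∈ UU K H,
      N ^ r ≤ q * ((univ \ Bad).filter fun h : A → Fin N => ∀ a, h a ∈ U).card := by
    intro U hU'
    have h1 : N ≤ K * U.card := (mem_filter.1 hU').2.1
    have h2 : (univ.filter fun h : A → Fin N => ∀ a, h a ∈ U).card = U.card ^ r := by
      have : (univ.filter fun h : A → Fin N => ∀ a, h a ∈ U) = Fintype.piFinset fun _ => U := by
        ext h
        rw [mem_filter, Fintype.mem_piFinset]
        exact ⟨fun h => h.2, fun h => ⟨mem_univ _, h⟩⟩
      rw [this, Fintype.card_piFinset, prod_const, card_univ]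
    have h3 : (univ.filter fun h : A → Fin N => ∀ a, h a ∈ U).card ≤
        ((univ \ Bad).filter fun h : A → Fin N => ∀ a, h a ∈ U).card + Bad.card := by
      refine le_trans (card_le_card ?_) (card_union_le _ _)
      intro h hh
      by_cases hB : h ∈ Bad
      · exact mem_union_right _ hB
      · exact mem_union_left _ (mem_filter.2 ⟨mem_sdiff.2 ⟨mem_univ _, hB⟩, (mem_filter.1 hh).2⟩)
    rw [h2] at h3
    have h4 : 2 * N ^ r ≤ q * U.card ^ r := by
      calc 2 * N ^ r ≤ 2 * (K * U.card) ^ r := by gcongr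
        _ = q * U.card ^ r := by rw [hq, mul_pow]; ring
    have h5 : q * U.card ^ r ≤
        q * (((univ \ Bad).filter fun h : A → Fin N => ∀ a, h a ∈ U).card + Bad.card) :=
      Nat.mul_le_mul_left _ h3
    rw [mul_add] at h5
    omega
  -- double counting
  have c7 : ∑ h ∈ univ \ Bad, ((UU K H).filter fun U => ∀ a, h a ∈ U).card =
      ∑ U ∈ UU K H, ((univ \ Bad).filter fun h : A → Fin N => ∀ a, h a ∈ U).card := by
    simp_rw [card_filter]
    exact sum_comm
  have c8 : (UU K H).card * N ^ r ≤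
      q * ∑ h ∈ univ \ Bad, ((UU K H).filter fun U => ∀ a, h a ∈ U).card := by
    rw [c7, mul_sum, ← smul_eq_mul, ← sum_const]
    exact sum_le_sum c6
  by_contra hcon
  push Not at hcon
  have c9 : ∀ h ∈ univ \ Bad, q * ((UU K H).filter fun U => ∀ a, h a ∈ U).card <
      (UU K H).card := by
    intro h hh
    rw [mem_sdiff, hBad, mem_union, not_or] at hh
    apply hcon h
    · intro a a' hne hJ
      exact hh.2.1 (mem_filter.2 ⟨mem_univ _, a, a', hne, hJ⟩)
    · intro a
      by_contra hlt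
      exact hh.2.2 (mem_filter.2 ⟨mem_univ _, a, mem_filter.2 ⟨mem_univ _, not_lt.1 hlt⟩⟩)
  have hUpos : 0 < (UU K H).card := card_pos.2 hU
  have hNr : 0 < N ^ r := by positivity
  by_cases hne : (univ \ Bad : Finset (A → Fin N)).Nonempty
  · have h1 : ∑ h ∈ univ \ Bad, q * ((UU K H).filter fun U => ∀ a, h a ∈ U).card <
        ∑ _h ∈ univ \ Bad, (UU K H).card := sum_lt_sum_of_nonempty hne c9
    rw [← mul_sum, sum_const, smul_eq_mul] at h1
    have h2 : (univ \ Bad : Finset (A → Fin N)).card ≤ N ^ r := by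
      refine (card_le_card (subset_univ _)).trans (le_of_eq ?_)
      rw [card_univ, Fintype.card_fun, Fintype.card_fin]
    have h3 : (univ \ Bad : Finset (A → Fin N)).card * (UU K H).card ≤
        N ^ r * (UU K H).card := Nat.mul_le_mul_right _ h2
    rw [mul_comm (N ^ r)] at h3
    omega
  · rw [not_nonempty_iff_eq_empty.1 hne, sum_empty, mul_zero] at c8
    have : 0 < (UU K H).card * N ^ r := by positivity
    omega

theorem pow_lemma {q : ℕ} (hq : 2 ≤ q) : 2 * (q - 1) ^ q < q ^ q := by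
  obtain ⟨p, rfl⟩ : ∃ p, q = p + 1 := ⟨q - 1, by omega⟩
  have hp : 1 ≤ p := by omega
  rw [Nat.add_sub_cancel]
  have h1 : 2 * p ^ p ≤ (p + 1) ^ p := by
    have hp0 : (0 : ℝ) < p := by exact_mod_cast hp
    have h2 : (2 : ℝ) ≤ (1 + 1 / (p : ℝ)) ^ p := by
      have h3 := one_add_mul_le_pow (a := 1 / (p : ℝ)) (by
        have : (0 : ℝ) ≤ 1 / (p : ℝ) := by positivity
        linarith) p
      have h4 : (p : ℝ) * (1 / (p : ℝ)) = 1 := by field_simp
      rw [h4] at h3
      linarith
    have h3 : (2 : ℝ) * (p : ℝ) ^ p ≤ ((p : ℝ) + 1) ^ p := by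
      have h4 : ((p : ℝ) + 1) ^ p = (1 + 1 / (p : ℝ)) ^ p * (p : ℝ) ^ p := by
        rw [← mul_pow]
        congr 1
        field_simp
      rw [h4]
      exact mul_le_mul_of_nonneg_right h2 (by positivity)
    exact_mod_cast h3
  calc 2 * p ^ (p + 1) = p * (2 * p ^ p) := by ring
    _ ≤ p * (p + 1) ^ p := Nat.mul_le_mul_left _ h1
    _ < (p + 1) * (p + 1) ^ p := Nat.mul_lt_mul_of_pos_right (Nat.lt_succ_self p) (by positivity)
    _ = (p + 1) ^ (p + 1) := by ring

open Classical in
theorem hyp_iter [Nonempty A] {K : ℕ} {q D : ℕ} (hq : q = 2 * K ^ Fintype.card A)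
    (hD : D = 2 * Fintype.card A ^ 2 * q ^ 2)
    (hN : 2 * q * Fintype.card A ^ 2 * (1 + D * Fintype.card A) ^ 3 ≤ N) (hN0 : 0 < N)
    (m : ℕ) (hm : m ≤ q * N) :
    ∃ H : Finset (A → Fin N), (∀ h ∈ H, Function.Injective h) ∧
      Sparse (H : Set (A → Fin N)) ∧ (UU K H = ∅ ∨ (H.card ≤ m ∧ (∀ x, hdeg H x ≤ D) ∧
        (UU K H).card * q ^ m ≤ 2 ^ N * (q - 1) ^ m)) := by
  induction m with
  | zero =>
    refine ⟨∅, fun h hh => absurd hh (notMem_empty _), ⟨?_, ?_, ?_⟩, Or.inr ⟨le_rfl, ?_, ?_⟩⟩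
    · intro h hh
      simp at hh
    · intro h hh
      simp at hh
    · intro h hh
      simp at hh
    · intro x
      rw [hdeg, filter_empty, card_empty]
      exact Nat.zero_le _
    · rw [pow_zero, pow_zero, mul_one, mul_one]
      refine (card_le_card (subset_univ _)).trans (le_of_eq ?_)
      rw [card_univ, Fintype.card_finset, Fintype.card_fin]
  | succ m ih =>
    obtain ⟨H, h1, h2, h3⟩ := ih (by omega)
    rcases h3 with h3 | ⟨h3, h4, h5⟩
    · exact ⟨H, h1, h2, Or.inl h3⟩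
    by_cases h6 : UU K H = ∅
    · exact ⟨H, h1, h2, Or.inl h6⟩
    obtain ⟨h, k1, k2, k3⟩ := hyp_step hq hD hN hN0 (h3.trans (by omega)) h4
      (nonempty_iff_ne_empty.2 h6)
    refine ⟨insert h H, ?_, ?_, Or.inr ⟨?_, ?_, ?_⟩⟩
    · intro g hg
      rcases mem_insert.1 hg with rfl | hg
      · intro a a' he
        by_contra hne
        apply k1 a a' hne
        rw [he]
        exact ⟨_, _, Or.inl rfl, Or.inl rfl, Or.inl rfl⟩
      · exact h1 g hg
    · apply sparse_insert h2
      rintro _ ⟨a, rfl⟩ _ ⟨a', rfl⟩ hne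
      exact k1 a a' fun e => hne (by rw [e])
    · exact (card_insert_le _ _).trans (Nat.add_le_add_right h3 1)
    · intro x
      by_cases hx : x ∈ Set.range h
      · obtain ⟨a, ha⟩ := hx
        have hlt := k2 a
        rw [ha] at hlt
        have : hdeg (insert h H) x ≤ hdeg H x + 1 := by
          rw [hdeg, hdeg]
          refine (card_le_card (t := insert h (H.filter fun h => Hits h x)) ?_).trans
            (card_insert_le _ _)
          intro g hg
          obtain ⟨g1, g2⟩ := mem_filter.1 hg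
          rcases mem_insert.1 g1 with g1 | g1
          · exact mem_insert.2 (Or.inl g1)
          · exact mem_insert.2 (Or.inr (mem_filter.2 ⟨g1, g2⟩))
        omega
      · have : hdeg (insert h H) x ≤ hdeg H x := by
          rw [hdeg, hdeg]
          apply card_le_card
          intro g hg
          obtain ⟨g1, g2⟩ := mem_filter.1 hg
          rcases mem_insert.1 g1 with g1 | g1
          · rw [g1] at g2
            exact absurd g2 hx
          · exact mem_filter.2 ⟨g1, g2⟩
        exact this.trans (h4 x)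
    · have e1 : (UU K (insert h H)).card + ((UU K H).filter fun U => ∀ a, h a ∈ U).card ≤
          (UU K H).card := by
        rw [← card_union_of_disjoint]
        · apply card_le_card
          intro U hU
          rcases mem_union.1 hU with hU | hU
          · obtain ⟨u1, u2, u3⟩ := mem_filter.1 hU
            exact mem_filter.2 ⟨u1, u2, fun g hg => u3 g (mem_insert_of_mem hg)⟩
          · exact (mem_filter.1 hU).1
        · rw [disjoint_left]
          intro U hU hU'
          exact (mem_filter.1 hU).2.2 h (mem_insert_self _ _) (mem_filter.1 hU').2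
      have hq1 : 1 ≤ q := by
        by_contra hq0
        have : q = 0 := by omega
        rw [this, zero_mul] at k3
        exact h6 (card_eq_zero.1 (Nat.le_zero.1 k3))
      have e2 : q * (UU K (insert h H)).card ≤ (q - 1) * (UU K H).card := by
        have e3 := Nat.mul_le_mul_left q e1
        rw [mul_add] at e3
        have e4 : (q - 1) * (UU K H).card + (UU K H).card = q * (UU K H).card := by
          rw [← Nat.succ_mul]
          congr 1
          omega
        omega
      calc (UU K (insert h H)).card * q ^ (m + 1)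
          = (q * (UU K (insert h H)).card) * q ^ m := by ring
        _ ≤ ((q - 1) * (UU K H).card) * q ^ m := Nat.mul_le_mul_right _ e2
        _ = (q - 1) * ((UU K H).card * q ^ m) := by ring
        _ ≤ (q - 1) * (2 ^ N * (q - 1) ^ m) := Nat.mul_le_mul_left _ h5
        _ = 2 ^ N * (q - 1) ^ (m + 1) := by ring

end main

theorem hyp (A : Type) [Finite A] [Nonempty A] (K : ℕ) (hK : 1 ≤ K) :
    ∃ (N : ℕ) (𝓗 : Finset (A → Fin N)), 0 < N ∧ (∀ h ∈ 𝓗, Function.Injective h) ∧
      Sparse (𝓗 : Set (A → Fin N)) ∧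
      ∀ U : Finset (Fin N), N ≤ K * U.card → ∃ h ∈ 𝓗, ∀ a, h a ∈ U := by
  classical
  have _ : Fintype A := Fintype.ofFinite A
  obtain ⟨q, hq⟩ : ∃ q, q = 2 * K ^ Fintype.card A := ⟨_, rfl⟩
  obtain ⟨D, hD⟩ : ∃ D, D = 2 * Fintype.card A ^ 2 * q ^ 2 := ⟨_, rfl⟩
  obtain ⟨N, hN⟩ : ∃ N, N = 2 * q * Fintype.card A ^ 2 * (1 + D * Fintype.card A) ^ 3 + 1 :=
    ⟨_, rfl⟩
  have hq2 : 2 ≤ q := by
    have : 1 ≤ K ^ Fintype.card A := Nat.one_le_pow _ _ hK
    omega
  obtain ⟨H, h1, h2, h3⟩ := hyp_iter (N := N) hq hD (by omega) (by omega) (q * N) le_rfl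
  have h4 : UU K H = ∅ := by
    rcases h3 with h3 | ⟨-, -, h5⟩
    · exact h3
    by_contra hne
    have h6 : 1 ≤ (UU K H).card := card_pos.2 (nonempty_iff_ne_empty.2 hne)
    have h7 : q ^ (q * N) ≤ 2 ^ N * (q - 1) ^ (q * N) := by
      calc q ^ (q * N) = 1 * q ^ (q * N) := (one_mul _).symm
        _ ≤ (UU K H).card * q ^ (q * N) := Nat.mul_le_mul_right _ h6
        _ ≤ _ := h5
    rw [pow_mul, pow_mul, ← mul_pow] at h7
    have h8 : (2 * (q - 1) ^ q) ^ N < (q ^ q) ^ N :=
      Nat.pow_lt_pow_left (pow_lemma hq2) (by omega)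
    omega
  refine ⟨N, H, by omega, h1, h2, ?_⟩
  intro U hU
  by_contra hcon
  push Not at hcon
  have h5 : U ∈ UU K H := by
    refine mem_filter.2 ⟨mem_univ _, hU, ?_⟩
    intro h hh h6
    obtain ⟨a, ha⟩ := hcon h hh
    exact ha (h6 a)
  rw [h4] at h5
  exact notMem_empty _ h5

end Pool.Agent.InvDiam
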