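import Pool.Agent.InvDiam.Defs

/-!
# InvDiam / Lin: the linear algebra form of the inversion diameter

PROOF.  `reach_iff`.  For a list `L = [X_1, …, X_k]` of sets, `(L.foldl invert O).arc u v` is `O.arc u v`
if the number of `i` with `u, v ∈ X_i` is even and `O.arc v u` if it is odd (induction on the list; `G` edges
or not does not matter). With `x u i = 1` iff `u ∈ X_i` this number is `x u ⬝ᵥ x v` modulo 2, and a vector
`x : V → Fin k → ZMod 2` gives back the sets `X_i = {u | x u i = 1}` (`List.ofFn`). Two orientations which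
agree on the edges are equal (`Orient.ext`; off the edges both arcs are false).
`invDiam_le_iff`.  `Orient G` is finite (`V` finite), so the range in `invDiam` is bounded. Reach is monotone
in `k` (add the empty set; or add a zero coordinate), and any two orientations reach each other in some
number of steps (for the coordinates take all edges `e` on which they differ: `x u e = 1` iff `u ∈ e`). So
`invDist O₁ O₂ ≤ t ↔ Reach O₁ O₂ t`. Given `π` take any orientation `O₁` (for example by an
equivalence of `V` with `Fin n`) and `O₂` = `O₁` with the edges `π = 1` reversed; given `O₁, O₂` let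
`π u v = 1` iff they differ on `uv`.
-/

set_option autoImplicit false

namespace Pool.Agent.InvDiam

private theorem z2 : ∀ b : ZMod 2, ¬ b = 0 → b = 1 := by decide

private theorem ind_mul (p q : Prop) [Decidable p] [Decidable q] [Decidable (p ∧ q)] :
    (if p then (1 : ZMod 2) else 0) * (if q then 1 else 0) = if p ∧ q then 1 else 0 := by
  by_cases hp : p <;> by_cases hq : q <;> simp [hp, hq]

open Classical in
private noncomputable def cn {V : Type} (L : List (Set V)) (u v : V) : ZMod 2 :=
  (L.map fun X => if u ∈ X ∧ v ∈ X then (1 : ZMod 2) else 0).sum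

open Classical in
private theorem cn_cons {V : Type} (X : Set V) (L : List (Set V)) (u v : V) :
    cn (X :: L) u v = (if u ∈ X ∧ v ∈ X then (1 : ZMod 2) else 0) + cn L u v := by
  simp [cn]

private theorem fold_arc {V : Type} {G : SimpleGraph V} (L : List (Set V)) :
    ∀ (O : Orient G) (u v : V), (L.foldl Orient.invert O).arc u v ↔
      (cn L u v = 0 ∧ O.arc u v) ∨ (cn L u v = 1 ∧ O.arc v u) := by
  classical
  induction L with
  | nil =>
    intro O u v
    simp [cn]
  | cons X L ih =>
    intro O u v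
    rw [List.foldl_cons, ih, cn_cons]
    have h01 : ∀ c : ZMod 2, c = 0 ∨ c = 1 := by decide
    have hs : (O.invert X).arc u v ↔
        (u ∈ X ∧ v ∈ X ∧ O.arc v u) ∨ (¬ (u ∈ X ∧ v ∈ X) ∧ O.arc u v) := Iff.rfl
    have hs' : (O.invert X).arc v u ↔
        (v ∈ X ∧ u ∈ X ∧ O.arc u v) ∨ (¬ (v ∈ X ∧ u ∈ X) ∧ O.arc v u) := Iff.rfl
    rw [hs, hs']
    have e1 : (1 : ZMod 2) + 1 = 0 := by decide
    have e2 : (1 : ZMod 2) ≠ 0 := by decide
    have e3 : (0 : ZMod 2) ≠ 1 := by decide
    by_cases hX : u ∈ X ∧ v ∈ X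
    · obtain ⟨hu, hv⟩ := hX
      rcases h01 (cn L u v) with h | h <;> simp [h, hu, hv, e1]
    · have hX' : ¬ (v ∈ X ∧ u ∈ X) := fun h => hX ⟨h.2, h.1⟩
      rcases h01 (cn L u v) with h | h
      · simp [h, hX, hX']
        exact fun hu hv _ => absurd ⟨hu, hv⟩ hX
      · simp [h, hX, hX']
        exact fun hv hu _ => absurd ⟨hu, hv⟩ hX

private theorem arc_swap {V : Type} {G : SimpleGraph V} (O : Orient G) {u v : V}
    (h : G.Adj u v) : O.arc v u ↔ ¬ O.arc u v := by
  constructor
  · intro h1 h2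
    exact O.asymm _ _ h1 h2
  · intro h1
    rcases O.total u v h with h2 | h2
    · exact absurd h2 h1
    · exact h2

open Classical in
theorem reach_iff {V : Type} {G : SimpleGraph V} (O₁ O₂ : Orient G) (k : ℕ) :
    Reach O₁ O₂ k ↔ ∃ x : V → Fin k → ZMod 2, ∀ u v, G.Adj u v →
      x u ⬝ᵥ x v = if (O₁.arc u v ↔ O₂.arc u v) then 0 else 1 := by
  have h01 : ∀ c : ZMod 2, c = 0 ∨ c = 1 := by decide
  have e2 : (1 : ZMod 2) ≠ 0 := by decide
  have e3 : (0 : ZMod 2) ≠ 1 := by decide
  constructor
  · rintro ⟨L, rfl, hL⟩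
    refine ⟨fun u i => if u ∈ L.get i then 1 else 0, fun u v huv => ?_⟩
    have h1 : (fun i : Fin L.length => if u ∈ L.get i then (1 : ZMod 2) else 0) ⬝ᵥ
        (fun i => if v ∈ L.get i then (1 : ZMod 2) else 0) = cn L u v := by
      have h2 : cn L u v = cn (List.ofFn L.get) u v := by rw [List.ofFn_get]
      rw [h2]
      unfold cn
      rw [List.map_ofFn, List.sum_ofFn, dotProduct]
      refine Finset.sum_congr rfl fun i _ => ?_
      simp only [Function.comp_apply]
      exact ind_mul _ _
    rw [h1]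
    have h2 := fold_arc L O₁ u v
    rw [hL] at h2
    have h3 := arc_swap O₁ huv
    rcases h01 (cn L u v) with h | h
    · rw [h] at h2 ⊢
      rw [if_pos]
      rw [h2]
      simp
    · rw [h] at h2 ⊢
      rw [if_neg]
      rw [h2, h3]
      simp
  · rintro ⟨x, hx⟩
    refine ⟨List.ofFn fun i => {u | x u i = 1}, List.length_ofFn, ?_⟩
    ext u v
    have h1 : cn (List.ofFn fun i => {u | x u i = 1}) u v = x u ⬝ᵥ x v := by
      unfold cn
      rw [List.map_ofFn, List.sum_ofFn, dotProduct]
      refine Finset.sum_congr rfl fun i _ => ?_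
      simp only [Function.comp_apply]
      by_cases hp : u ∈ {u | x u i = 1} ∧ v ∈ {u | x u i = 1}
      · have h1 : x u i = 1 := hp.1
        have h2 : x v i = 1 := hp.2
        rw [if_pos hp, h1, h2, one_mul]
      · rw [if_neg hp]
        rcases h01 (x u i) with h | h
        · rw [h, zero_mul]
        · rcases h01 (x v i) with h' | h'
          · rw [h', mul_zero]
          · exact absurd ⟨h, h'⟩ hp
    by_cases huv : G.Adj u v
    · rw [fold_arc, h1, hx u v huv, arc_swap O₁ huv]
      by_cases hi : (O₁.arc u v ↔ O₂.arc u v)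
      · rw [if_pos hi]
        simp [hi]
      · rw [if_neg hi]
        have : ¬ O₁.arc u v ↔ O₂.arc u v := by tauto
        simp [this]
    · constructor
      · intro h
        exact absurd (Orient.adj _ u v h) huv
      · intro h
        exact absurd (Orient.adj _ u v h) huv

private theorem invert_empty {V : Type} {G : SimpleGraph V} (O : Orient G) :
    O.invert ∅ = O := by
  ext u v
  have h : (O.invert ∅).arc u v ↔ (u ∈ (∅ : Set V) ∧ v ∈ (∅ : Set V) ∧ O.arc v u) ∨
      (¬ (u ∈ (∅ : Set V) ∧ v ∈ (∅ : Set V)) ∧ O.arc u v) := Iff.rfl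
  rw [h]
  simp

private theorem reach_succ {V : Type} {G : SimpleGraph V} {O₁ O₂ : Orient G} {k : ℕ}
    (h : Reach O₁ O₂ k) : Reach O₁ O₂ (k + 1) := by
  obtain ⟨L, h1, h2⟩ := h
  refine ⟨∅ :: L, by rw [List.length_cons, h1], ?_⟩
  rw [List.foldl_cons, invert_empty, h2]

private theorem reach_mono {V : Type} {G : SimpleGraph V} {O₁ O₂ : Orient G} {k t : ℕ}
    (hkt : k ≤ t) (h : Reach O₁ O₂ k) : Reach O₁ O₂ t := by
  induction t, hkt using Nat.le_induction with
  | base => exact h
  | succ t _ ih => exact reach_succ ih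

private theorem exists_vec {V : Type} [Finite V] (π : V → V → ZMod 2)
    (hπ : ∀ u v, π u v = π v u) : ∃ (k : ℕ) (x : V → Fin k → ZMod 2), ∀ u v, u ≠ v →
      x u ⬝ᵥ x v = π u v := by
  classical
  have := Fintype.ofFinite V
  let P : Sym2 V → ZMod 2 := Sym2.lift ⟨π, hπ⟩
  let e := Fintype.equivFin (Sym2 V)
  refine ⟨Fintype.card (Sym2 V), fun u i => if u ∈ e.symm i then P (e.symm i) else 0,
    fun u v huv => ?_⟩
  rw [dotProduct, e.symm.sum_comp (fun s => (if u ∈ s then P s else 0) *
    (if v ∈ s then P s else 0)), Finset.sum_eq_single s(u, v)]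
  · have h1 : u ∈ s(u, v) := Sym2.mem_mk_left u v
    have h2 : v ∈ s(u, v) := Sym2.mem_mk_right u v
    rw [if_pos h1, if_pos h2]
    have h3 : P s(u, v) = π u v := rfl
    rw [h3]
    have : ∀ b : ZMod 2, b * b = b := by decide
    exact this _
  · intro s _ hs
    by_cases hu : u ∈ s
    · by_cases hv : v ∈ s
      · exact absurd ((Sym2.mem_and_mem_iff huv).1 ⟨hu, hv⟩) hs
      · rw [if_neg hv, mul_zero]
    · rw [if_neg hu, zero_mul]
  · intro h
    exact absurd (Finset.mem_univ _) h

open Classical in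
private theorem diff_symm {V : Type} {G : SimpleGraph V} (O₁ O₂ : Orient G) (u v : V) :
    (if (O₁.arc u v ↔ O₂.arc u v) then (0 : ZMod 2) else 1) =
      if (O₁.arc v u ↔ O₂.arc v u) then 0 else 1 := by
  have h : (O₁.arc u v ↔ O₂.arc u v) ↔ (O₁.arc v u ↔ O₂.arc v u) := by
    by_cases huv : G.Adj u v
    · rw [arc_swap O₁ huv, arc_swap O₂ huv]
      tauto
    · have h1 : ¬ O₁.arc u v := fun h => huv (O₁.adj _ _ h)
      have h2 : ¬ O₂.arc u v := fun h => huv (O₂.adj _ _ h)
      have h3 : ¬ O₁.arc v u := fun h => huv (O₁.adj _ _ h).symm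
      have h4 : ¬ O₂.arc v u := fun h => huv (O₂.adj _ _ h).symm
      tauto
  by_cases hc : (O₁.arc u v ↔ O₂.arc u v)
  · rw [if_pos hc, if_pos (h.1 hc)]
  · rw [if_neg hc, if_neg (fun h' => hc (h.2 h'))]

private theorem reach_exists {V : Type} [Finite V] {G : SimpleGraph V} (O₁ O₂ : Orient G) :
    ∃ k, Reach O₁ O₂ k := by
  classical
  obtain ⟨k, x, hx⟩ := exists_vec (fun u v => if (O₁.arc u v ↔ O₂.arc u v) then (0 : ZMod 2)
    else 1) (diff_symm O₁ O₂)
  exact ⟨k, (reach_iff O₁ O₂ k).2 ⟨x, fun u v huv => hx u v huv.ne⟩⟩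

private theorem dist_le_iff {V : Type} [Finite V] {G : SimpleGraph V} (O₁ O₂ : Orient G)
    (t : ℕ) : invDist O₁ O₂ ≤ t ↔ Reach O₁ O₂ t := by
  constructor
  · intro h
    have h1 : invDist O₁ O₂ ∈ {k | Reach O₁ O₂ k} := Nat.sInf_mem (reach_exists O₁ O₂)
    exact reach_mono h h1
  · intro h
    exact Nat.sInf_le h

private theorem orient_finite {V : Type} [Finite V] (G : SimpleGraph V) : Finite (Orient G) := by
  refine Finite.of_injective (fun O : Orient G => O.arc) fun O O' h => ?_
  ext u v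
  rw [show O.arc = O'.arc from h]

/-- an orientation by an order of the vertices -/
private theorem orient_nonempty {V : Type} [Finite V] (G : SimpleGraph V) :
    Nonempty (Orient G) := by
  classical
  have := Fintype.ofFinite V
  let e := Fintype.equivFin V
  refine ⟨⟨fun u v => G.Adj u v ∧ e u < e v, fun u v h => h.1, fun u v h => ?_,
    fun u v h h' => ?_⟩⟩
  · rcases lt_trichotomy (e u) (e v) with h1 | h1 | h1
    · exact Or.inl ⟨h, h1⟩
    · exact absurd (e.injective h1) h.ne
    · exact Or.inr ⟨h.symm, h1⟩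
  · exact lt_asymm h.2 h'.2

theorem invDiam_le_iff {V : Type} [Finite V] (G : SimpleGraph V) (t : ℕ) :
    invDiam G ≤ t ↔ ∀ π : V → V → ZMod 2, (∀ u v, π u v = π v u) →
      ∃ x : V → Fin t → ZMod 2, ∀ u v, G.Adj u v → x u ⬝ᵥ x v = π u v := by
  classical
  have hfin := orient_finite G
  obtain ⟨O⟩ := orient_nonempty G
  have hbdd : BddAbove (Set.range fun p : Orient G × Orient G => invDist p.1 p.2) :=
    (Set.finite_range _).bddAbove
  have h01 : ∀ c : ZMod 2, c = 0 ∨ c = 1 := by decide
  have key : invDiam G ≤ t ↔ ∀ O₁ O₂ : Orient G, Reach O₁ O₂ t := by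
    unfold invDiam
    rw [csSup_le_iff hbdd ⟨_, ⟨(O, O), rfl⟩⟩]
    constructor
    · intro h O₁ O₂
      exact (dist_le_iff O₁ O₂ t).1 (h _ ⟨(O₁, O₂), rfl⟩)
    · rintro h _ ⟨p, rfl⟩
      exact (dist_le_iff p.1 p.2 t).2 (h p.1 p.2)
  rw [key]
  constructor
  · intro h π hπ
    let O₂ : Orient G :=
      { arc := fun u v => (π u v = 0 ∧ O.arc u v) ∨ (π u v = 1 ∧ O.arc v u)
        adj := fun u v h => by
          rcases h with ⟨_, h⟩ | ⟨_, h⟩
          · exact O.adj _ _ h
          · exact (O.adj _ _ h).symm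
        total := fun u v h => by
          rcases h01 (π u v) with hp | hp
          · rcases O.total u v h with h1 | h1
            · exact Or.inl (Or.inl ⟨hp, h1⟩)
            · exact Or.inr (Or.inl ⟨by rw [hπ v u]; exact hp, h1⟩)
          · rcases O.total u v h with h1 | h1
            · exact Or.inr (Or.inr ⟨by rw [hπ v u]; exact hp, h1⟩)
            · exact Or.inl (Or.inr ⟨hp, h1⟩)
        asymm := fun u v h h' => by
          have e2 : (1 : ZMod 2) ≠ 0 := by decide
          rcases h with ⟨hp, h⟩ | ⟨hp, h⟩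
          · rcases h' with ⟨hp', h'⟩ | ⟨hp', h'⟩
            · exact O.asymm _ _ h h'
            · rw [hπ v u, hp] at hp'
              exact e2 hp'.symm
          · rcases h' with ⟨hp', h'⟩ | ⟨hp', h'⟩
            · rw [hπ v u, hp] at hp'
              exact e2 hp'
            · exact O.asymm _ _ h h' }
    have hO₂ : ∀ u v, O₂.arc u v ↔ (π u v = 0 ∧ O.arc u v) ∨ (π u v = 1 ∧ O.arc v u) :=
      fun _ _ => Iff.rfl
    obtain ⟨x, hx⟩ := (reach_iff O O₂ t).1 (h O O₂)
    refine ⟨x, fun u v huv => ?_⟩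
    rw [hx u v huv]
    have h2 := arc_swap O huv
    rcases h01 (π u v) with hp | hp
    · rw [if_pos, hp]
      rw [hO₂, hp]
      simp
    · rw [if_neg, hp]
      rw [hO₂, hp, h2]
      simp
  · intro h O₁ O₂
    obtain ⟨x, hx⟩ := h (fun u v => if (O₁.arc u v ↔ O₂.arc u v) then (0 : ZMod 2) else 1)
      (diff_symm O₁ O₂)
    exact (reach_iff O₁ O₂ t).2 ⟨x, hx⟩

end Pool.Agent.InvDiam
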