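import Pool.Agent.InvDiam.Defs

/-!
# InvDiam / Step: one step of the partite construction
-/

set_option autoImplicit false

namespace Pool.Agent.InvDiam

open Combinatorics

/-- The edges between the parts `i` and `j`. -/
abbrev EE {ι : Type} {p : ℕ} (P : PSys ι p) (i j : Fin p) : Type :=
  {e : P.W × P.W // P.part e.1 = i ∧ P.part e.2 = j ∧ P.G.Adj e.1 e.2}

section
variable {ι : Type} {p : ℕ} {P : PSys ι p} {i j : Fin p} {κ : Type}

/-- The point over `v` on the line `l`. -/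
def pt (l : Line (EE P i j) κ) (v : P.W) (m : κ) : P.W :=
  match l.idxFun m with
  | none => v
  | some e => if P.part v = i then e.1.1 else e.1.2

theorem pt_none {l : Line (EE P i j) κ} {v : P.W} {m : κ} (h : l.idxFun m = none) :
    pt l v m = v := by
  simp [pt, h]

theorem pt_i {l : Line (EE P i j) κ} {v : P.W} {m : κ} {e} (h : l.idxFun m = some e)
    (hv : P.part v = i) : pt l v m = e.1.1 := by
  simp [pt, h, hv]

theorem pt_j (hij : i ≠ j) {l : Line (EE P i j) κ} {v : P.W} {m : κ} {e}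
    (h : l.idxFun m = some e) (hv : P.part v = j) : pt l v m = e.1.2 := by
  simp [pt, h, hv, hij.symm]

/-- The copy of `P` along the line `l`. -/
def psi (l : Line (EE P i j) κ) (v : P.W) : (κ → P.W) ⊕ (Line (EE P i j) κ × P.W) :=
  if P.part v = i ∨ P.part v = j then Sum.inl (pt l v) else Sum.inr (l, v)

theorem psi_in {l : Line (EE P i j) κ} {v : P.W} (h : P.part v = i ∨ P.part v = j) :
    psi l v = Sum.inl (pt l v) := by
  simp [psi, h]

theorem psi_out {l : Line (EE P i j) κ} {v : P.W} (h : ¬ (P.part v = i ∨ P.part v = j)) :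
    psi l v = Sum.inr (l, v) := by
  unfold psi
  rw [if_neg h]

theorem psi_inr {l l₀ : Line (EE P i j) κ} {v w : P.W} (h : psi l v = Sum.inr (l₀, w)) :
    l = l₀ ∧ v = w := by
  by_cases hv : P.part v = i ∨ P.part v = j
  · rw [psi_in hv] at h
    simp at h
  · rw [psi_out hv] at h
    simpa using h

theorem psi_inl {l : Line (EE P i j) κ} {v : P.W} {f : κ → P.W} (h : psi l v = Sum.inl f) :
    (P.part v = i ∨ P.part v = j) ∧ pt l v = f := by
  by_cases hv : P.part v = i ∨ P.part v = j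
  · rw [psi_in hv] at h
    exact ⟨hv, by simpa using h⟩
  · rw [psi_out hv] at h
    simp at h

/-- The part of a new vertex. -/
def part' (m₀ : κ) (x : (κ → P.W) ⊕ (Line (EE P i j) κ × P.W)) : Fin p :=
  match x with
  | Sum.inl f => P.part (f m₀)
  | Sum.inr q => P.part q.2

theorem part_pt (hij : i ≠ j) (l : Line (EE P i j) κ) (v : P.W) (m : κ)
    (h : P.part v = i ∨ P.part v = j) : P.part (pt l v m) = P.part v := by
  rcases hl : l.idxFun m with _ | e
  · rw [pt_none hl]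
  · rcases h with h | h
    · rw [pt_i hl h, h, e.2.1]
    · rw [pt_j hij hl h, h, e.2.2.1]

theorem part_psi (hij : i ≠ j) (m₀ : κ) (l : Line (EE P i j) κ) (v : P.W) :
    part' m₀ (psi l v) = P.part v := by
  by_cases h : P.part v = i ∨ P.part v = j
  · rw [psi_in h]
    exact part_pt hij l v m₀ h
  · rw [psi_out h]
    rfl

theorem psi_part_eq (hij : i ≠ j) {l l' : Line (EE P i j) κ} {u u' : P.W}
    (h : psi l u = psi l' u') : P.part u = P.part u' := by
  obtain ⟨m, hm⟩ := l.proper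
  rw [← part_psi hij m l u, ← part_psi hij m l' u', h]

theorem psi_inj {l : Line (EE P i j) κ} : Function.Injective (psi l) := by
  intro u v h
  by_cases hv : P.part v = i ∨ P.part v = j
  · rw [psi_in hv] at h
    obtain ⟨_, h⟩ := psi_inl h
    obtain ⟨m, hm⟩ := l.proper
    have := congrFun h m
    rwa [pt_none hm, pt_none hm] at this
  · rw [psi_out hv] at h
    exact (psi_inr h).2

/-- The main case distinction: two points of two copies. -/
theorem pull (hij : i ≠ j) {l l' : Line (EE P i j) κ} {u v u' v' : P.W}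
    (hu : psi l u = psi l' u') (hv : psi l v = psi l' v') (hne : P.part u' ≠ P.part v') :
    (u = u' ∧ v = v') ∨ P.G.Adj u v := by
  by_cases h1 : P.part u = i ∨ P.part u = j
  swap
  · rw [psi_out h1] at hu
    obtain ⟨h2, h3⟩ := psi_inr hu.symm
    subst h2
    exact Or.inl ⟨h3.symm, psi_inj hv⟩
  by_cases h2 : P.part v = i ∨ P.part v = j
  swap
  · rw [psi_out h2] at hv
    obtain ⟨h3, h4⟩ := psi_inr hv.symm
    subst h3
    exact Or.inl ⟨psi_inj hu, h4.symm⟩
  have e1 := psi_part_eq hij hu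
  have e2 := psi_part_eq hij hv
  have h1' : P.part u' = i ∨ P.part u' = j := by rwa [← e1]
  have h2' : P.part v' = i ∨ P.part v' = j := by rwa [← e2]
  rw [psi_in h1, psi_in h1'] at hu
  rw [psi_in h2, psi_in h2'] at hv
  have hu2 : pt l u = pt l' u' := by simpa using hu
  have hv2 : pt l v = pt l' v' := by simpa using hv
  obtain ⟨m, hm⟩ := l.proper
  have hu3 := congrFun hu2 m
  have hv3 := congrFun hv2 m
  rw [pt_none hm] at hu3 hv3
  rcases hl : l'.idxFun m with _ | e
  · rw [pt_none hl] at hu3 hv3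
    exact Or.inl ⟨hu3, hv3⟩
  · right
    rcases h1' with h1' | h1'
    · rcases h2' with h2' | h2'
      · exact absurd (h1'.trans h2'.symm) hne
      · rw [pt_i hl h1'] at hu3
        rw [pt_j hij hl h2'] at hv3
        rw [hu3, hv3]
        exact e.2.2.2
    · rcases h2' with h2' | h2'
      · rw [pt_j hij hl h1'] at hu3
        rw [pt_i hl h2'] at hv3
        rw [hu3, hv3]
        exact e.2.2.2.symm
      · exact absurd (h1'.trans h2'.symm) hne

/-- The new graph. -/
def G' (P : PSys ι p) (i j : Fin p) (κ : Type) :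
    SimpleGraph ((κ → P.W) ⊕ (Line (EE P i j) κ × P.W)) where
  Adj x y := ∃ (l : Line (EE P i j) κ) (u v : P.W), P.G.Adj u v ∧ psi l u = x ∧ psi l v = y
  symm := ⟨fun x y ⟨l, u, v, h, hx, hy⟩ => ⟨l, v, u, h.symm, hy, hx⟩⟩
  loopless := ⟨fun x ⟨l, u, v, h, hx, hy⟩ => h.ne (psi_inj (hx.trans hy.symm))⟩

/-- The new tiles. -/
def T' (P : PSys ι p) (i j : Fin p) (κ : Type) :
    Set (ι → (κ → P.W) ⊕ (Line (EE P i j) κ × P.W)) :=
  {d | ∃ (l : Line (EE P i j) κ), ∃ c ∈ P.T, d = psi l ∘ c}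

theorem adj_psi (hij : i ≠ j) (hpart : ∀ u v, P.G.Adj u v → P.part u ≠ P.part v)
    {l : Line (EE P i j) κ} {u v : P.W} :
    (G' P i j κ).Adj (psi l u) (psi l v) ↔ P.G.Adj u v := by
  constructor
  · rintro ⟨l', u', v', h, hu, hv⟩
    rcases pull hij hu.symm hv.symm (hpart _ _ h) with ⟨h1, h2⟩ | h1
    · rwa [h1, h2]
    · exact h1
  · intro h
    exact ⟨l, u, v, h, rfl, rfl⟩

theorem adj_part (hij : i ≠ j) (hpart : ∀ u v, P.G.Adj u v → P.part u ≠ P.part v) (m₀ : κ)
    {x y : (κ → P.W) ⊕ (Line (EE P i j) κ × P.W)} (h : (G' P i j κ).Adj x y) :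
    part' m₀ x ≠ part' m₀ y := by
  obtain ⟨l, u, v, h, rfl, rfl⟩ := h
  rw [part_psi hij, part_psi hij]
  exact hpart _ _ h

/-- A triangle with a private vertex. -/
theorem tri_priv (hij : i ≠ j) {F : SimpleGraph ι} {a : ℕ} (hP : P.Ok F a)
    {l : Line (EE P i j) κ} {w : P.W} {y z : (κ → P.W) ⊕ (Line (EE P i j) κ × P.W)}
    (h1 : (G' P i j κ).Adj (Sum.inr (l, w)) y) (h2 : (G' P i j κ).Adj (Sum.inr (l, w)) z)
    (h3 : (G' P i j κ).Adj y z) : False := by
  obtain ⟨l1, u1, v1, ha1, hx1, rfl⟩ := h1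
  obtain ⟨l2, u2, v2, ha2, hx2, rfl⟩ := h2
  obtain ⟨rfl, rfl⟩ := psi_inr hx1
  obtain ⟨rfl, rfl⟩ := psi_inr hx2
  rw [adj_psi hij hP.hpart] at h3
  exact hP.tri _ _ _ ha1 h3 ha2

theorem adj_inl {f : κ → P.W} {y : (κ → P.W) ⊕ (Line (EE P i j) κ × P.W)} (hij : i ≠ j) (m₀ : κ)
    (h : (G' P i j κ).Adj (Sum.inl f) y) :
    part' m₀ (Sum.inl f : (κ → P.W) ⊕ (Line (EE P i j) κ × P.W)) = i ∨
      part' m₀ (Sum.inl f : (κ → P.W) ⊕ (Line (EE P i j) κ × P.W)) = j := by
  obtain ⟨l, u, v, ha, hx, hy⟩ := h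
  rw [← hx, part_psi hij]
  exact (psi_inl hx).1

theorem three_parts {x y z : Fin p} (hx : x = i ∨ x = j) (hy : y = i ∨ y = j) (hz : z = i ∨ z = j)
    (h1 : x ≠ y) (h2 : y ≠ z) (h3 : x ≠ z) : False := by
  rcases hx with rfl | rfl <;> rcases hy with rfl | rfl <;> rcases hz with rfl | rfl <;> simp_all

theorem tri_new (hij : i ≠ j) {F : SimpleGraph ι} {a : ℕ} (hP : P.Ok F a) (m₀ : κ)
    (x y z : (κ → P.W) ⊕ (Line (EE P i j) κ × P.W)) (h1 : (G' P i j κ).Adj x y)
    (h2 : (G' P i j κ).Adj y z) (h3 : (G' P i j κ).Adj x z) : False := by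
  rcases x with f | ⟨l, w⟩
  swap
  · exact tri_priv hij hP h1 h3 h2
  rcases y with g | ⟨l, w⟩
  swap
  · exact tri_priv hij hP h1.symm h2 h3
  rcases z with e | ⟨l, w⟩
  swap
  · exact tri_priv hij hP h3.symm h2.symm h1
  exact three_parts (adj_inl hij m₀ h1) (adj_inl hij m₀ h2) (adj_inl hij m₀ h2.symm)
    (adj_part hij hP.hpart m₀ h1) (adj_part hij hP.hpart m₀ h2) (adj_part hij hP.hpart m₀ h3)

/-- The main case of `OutOne`: a private vertex of another copy. -/
theorem out_aux (hij : i ≠ j) {F : SimpleGraph ι} {a : ℕ} (hP : P.Ok F a)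
    {l l0 : Line (EE P i j) κ} (hl : l ≠ l0) {c : ι → P.W} (hc : c ∈ P.T) {k k' : ι}
    (hk : P.part (c k) = i) (hk' : P.part (c k') = j) {v x1 y2 : P.W}
    (hx : psi l0 x1 = psi l (c k)) (hy : psi l0 y2 = psi l (c k')) (hvx : P.G.Adj v x1)
    (hvy : P.G.Adj v y2) : False := by
  have hkk' : c k ≠ c k' := by
    intro h
    rw [h, hk'] at hk
    exact hij hk.symm
  have hx1 : P.part x1 = i := by rw [psi_part_eq hij hx, hk]
  have hy2 : P.part y2 = j := by rw [psi_part_eq hij hy, hk']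
  rw [psi_in (Or.inl hx1), psi_in (Or.inl hk)] at hx
  rw [psi_in (Or.inr hy2), psi_in (Or.inr hk')] at hy
  have hx' : pt l0 x1 = pt l (c k) := by simpa using hx
  have hy' : pt l0 y2 = pt l (c k') := by simpa using hy
  by_cases hm : ∃ m, l.idxFun m = none ∧ l0.idxFun m = none
  · obtain ⟨m, hm1, hm2⟩ := hm
    have e1 := congrFun hx' m
    have e2 := congrFun hy' m
    rw [pt_none hm1, pt_none hm2] at e1 e2
    subst e1
    subst e2
    have hna : ¬ P.G.Adj (c k) (c k') := fun h => hP.tri _ _ _ hvx h hvy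
    have key : ∀ m, l.idxFun m = l0.idxFun m := by
      intro m
      have e1 := congrFun hx' m
      have e2 := congrFun hy' m
      rcases h1 : l.idxFun m with _ | e <;> rcases h2 : l0.idxFun m with _ | e'
      · rfl
      · rw [pt_none h1, pt_i h2 hk] at e1
        rw [pt_none h1, pt_j hij h2 hk'] at e2
        exact absurd (by rw [← e1, ← e2]; exact e'.2.2.2) hna
      · rw [pt_none h2, pt_i h1 hk] at e1
        rw [pt_none h2, pt_j hij h1 hk'] at e2
        exact absurd (by rw [e1, e2]; exact e.2.2.2) hna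
      · rw [pt_i h1 hk, pt_i h2 hk] at e1
        rw [pt_j hij h1 hk', pt_j hij h2 hk'] at e2
        congr 1
        exact Subtype.ext (Prod.ext e1.symm e2.symm)
    exact hl (Line.ext (funext key))
  · obtain ⟨m, hm0⟩ := l0.proper
    rcases h1 : l.idxFun m with _ | e
    · exact hm ⟨m, h1, hm0⟩
    · have e1 := congrFun hx' m
      have e2 := congrFun hy' m
      rw [pt_none hm0, pt_i h1 hk] at e1
      rw [pt_none hm0, pt_j hij h1 hk'] at e2
      have : P.G.Adj x1 y2 := by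
        rw [e1, e2]
        exact e.2.2.2
      exact hP.tri _ _ _ hvx this hvy

theorem out_new (hij : i ≠ j) {F : SimpleGraph ι} {a : ℕ} (hP : P.Ok F a) (m₀ : κ) :
    OutOne (G' P i j κ) (T' P i j κ) := by
  rintro d ⟨l, c, hc, rfl⟩ v hv k k' h1 h2
  by_contra hkk'
  have hck : P.part (c k) ≠ P.part (c k') := fun h => hkk' (hP.tinj c hc h)
  -- if `v` lies in the copy of `l`
  have hcopy : ∀ u, psi l u ≠ v := by
    rintro u rfl
    rw [Function.comp_apply, adj_psi hij hP.hpart] at h1 h2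
    refine hkk' (hP.out c hc u ?_ k k' h1 h2)
    rintro ⟨m, rfl⟩
    exact hv ⟨m, rfl⟩
  rcases v with f | ⟨l0, w⟩
  · have hp1 := adj_part hij hP.hpart m₀ h1
    have hp2 := adj_part hij hP.hpart m₀ h2
    have hp0 := adj_inl hij m₀ h1
    rw [Function.comp_apply, part_psi hij] at hp1 hp2
    have : ¬ (P.part (c k) = i ∨ P.part (c k) = j) ∨ ¬ (P.part (c k') = i ∨ P.part (c k') = j) := by
      by_contra hcon
      push Not at hcon
      exact three_parts hp0 hcon.1 hcon.2 hp1 hck hp2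
    rcases this with h | h
    · obtain ⟨l1, u1, x1, ha, hx, hy⟩ := h1
      rw [Function.comp_apply, psi_out h] at hy
      obtain ⟨rfl, rfl⟩ := psi_inr hy
      exact hcopy u1 hx
    · obtain ⟨l1, u1, x1, ha, hx, hy⟩ := h2
      rw [Function.comp_apply, psi_out h] at hy
      obtain ⟨rfl, rfl⟩ := psi_inr hy
      exact hcopy u1 hx
  · obtain ⟨l1, u1, x1, ha1, hx1, hy1⟩ := h1
    obtain ⟨l2, u2, x2, ha2, hx2, hy2⟩ := h2
    have hcop := hcopy
    obtain ⟨rfl, rfl⟩ := psi_inr hx1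
    obtain ⟨rfl, rfl⟩ := psi_inr hx2
    have hl : l ≠ l2 := by
      rintro rfl
      exact hcop _ hx1
    rw [Function.comp_apply] at hy1 hy2
    -- both points are not private
    have hp1 : P.part (c k) = i ∨ P.part (c k) = j := by
      by_contra h
      rw [psi_out h] at hy1
      exact hl (psi_inr hy1).1.symm
    have hp2 : P.part (c k') = i ∨ P.part (c k') = j := by
      by_contra h
      rw [psi_out h] at hy2
      exact hl (psi_inr hy2).1.symm
    rcases hp1 with hp1 | hp1 <;> rcases hp2 with hp2 | hp2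
    · exact hck (hp1.trans hp2.symm)
    · exact out_aux hij hP hl hc hp1 hp2 hy1 hy2 ha1 ha2
    · exact out_aux hij hP hl hc hp2 hp1 hy2 hy1 ha2 ha1
    · exact hck (hp1.trans hp2.symm)

theorem rel_pull (hij : i ≠ j) {F : SimpleGraph ι} {a : ℕ} (hP : P.Ok F a)
    {l : Line (EE P i j) κ} {u v : P.W} (huv : u ≠ v) (h : Related (T' P i j κ) (psi l u) (psi l v)) :
    Related P.T u v := by
  obtain ⟨d, ⟨l', c, hc, rfl⟩, ⟨k, hk⟩, ⟨k', hk'⟩⟩ := h
  rw [Function.comp_apply] at hk hk'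
  have hkk' : k ≠ k' := by
    rintro rfl
    exact huv (psi_inj (hk.symm.trans hk'))
  have hne : P.part (c k) ≠ P.part (c k') := fun h => hkk' (hP.tinj c hc h)
  rcases pull hij hk.symm hk'.symm hne with ⟨h1, h2⟩ | h1
  · rw [h1, h2]
    exact ⟨c, hc, ⟨k, rfl⟩, ⟨k', rfl⟩⟩
  · exact hP.etile _ _ h1

theorem small_new (hij : i ≠ j) {F : SimpleGraph ι} {a : ℕ} (ha : 2 ≤ a) (hP : P.Ok F a) (m₀ : κ) :
    Small (G' P i j κ) (T' P i j κ) a := by
  classical
  intro S hrel hind
  rcases Nat.lt_or_ge S.card 2 with hS | hS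
  · omega
  -- every element has a partner
  have hpart : ∀ x ∈ S, ∃ y ∈ S, x ≠ y := by
    intro x hx
    by_contra h
    push Not at h
    have : S ⊆ {x} := fun y hy => by simp [h y hy]
    have := Finset.card_le_card this
    simp at this
    omega
  by_cases hpriv : ∃ x ∈ S, ∃ q, x = Sum.inr q
  · obtain ⟨x, hx, ⟨l, w⟩, rfl⟩ := hpriv
    have hsub : ∀ y ∈ S, ∃ u, psi l u = y := by
      have h2 : ∀ y ∈ S, y ≠ Sum.inr (l, w) →
          (∃ u, psi l u = y) ∧ ∃ u, psi l u = Sum.inr (l, w) := by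
        intro y hy hne
        obtain ⟨d, ⟨l', c, hc, rfl⟩, ⟨k, hk⟩, ⟨k', hk'⟩⟩ := hrel _ hx y hy (Ne.symm hne)
        rw [Function.comp_apply] at hk hk'
        obtain ⟨rfl, _⟩ := psi_inr hk
        exact ⟨⟨c k', hk'⟩, ⟨c k, hk⟩⟩
      intro y hy
      by_cases hyx : y = Sum.inr (l, w)
      · obtain ⟨z, hz, hne⟩ := hpart _ hx
        subst hyx
        exact (h2 z hz hne.symm).2
      · exact (h2 y hy hyx).1
    set S₀ : Finset P.W := S.preimage (psi l) (psi_inj.injOn) with hS₀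
    have hcard : S.card ≤ S₀.card := by
      have : S = S₀.image (psi l) := by
        ext y
        simp only [Finset.mem_image, hS₀, Finset.mem_preimage]
        constructor
        · intro hy
          obtain ⟨u, rfl⟩ := hsub y hy
          exact ⟨u, hy, rfl⟩
        · rintro ⟨u, hu, rfl⟩
          exact hu
      rw [this]
      exact Finset.card_image_le
    refine hcard.trans (hP.small S₀ ?_ ?_)
    · intro u hu v hv huv
      rw [hS₀, Finset.mem_preimage] at hu hv
      exact rel_pull hij hP huv (hrel _ hu _ hv fun h => huv (psi_inj h))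
    · intro u hu v hv h
      rw [hS₀, Finset.mem_preimage] at hu hv
      exact hind _ hu _ hv ((adj_psi hij hP.hpart).2 h)
  · push Not at hpriv
    have hin : ∀ x ∈ S, part' m₀ x ∈ ({i, j} : Finset (Fin p)) := by
      intro x hx
      obtain ⟨y, hy, hne⟩ := hpart x hx
      obtain ⟨d, ⟨l, c, hc, rfl⟩, ⟨k, hk⟩, _⟩ := hrel x hx y hy hne
      rw [Function.comp_apply] at hk
      rcases x with f | q
      · rw [← hk, part_psi hij]
        simpa using (psi_inl hk).1
      · exact absurd rfl (hpriv _ hx q)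
    have hinj : Set.InjOn (part' (P := P) (i := i) (j := j) m₀) (S : Set _) := by
      intro x hx y hy hxy
      by_contra hne
      obtain ⟨d, ⟨l, c, hc, rfl⟩, ⟨k, hk⟩, ⟨k', hk'⟩⟩ := hrel x hx y hy hne
      rw [Function.comp_apply] at hk hk'
      rw [← hk, ← hk', part_psi hij, part_psi hij] at hxy
      have := hP.tinj c hc hxy
      subst this
      exact hne (hk.symm.trans hk')
    calc S.card ≤ ({i, j} : Finset (Fin p)).card := Finset.card_le_card_of_injOn _ hin hinj
      _ ≤ 2 := Finset.card_le_two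
      _ ≤ a := ha

end

theorem step {ι : Type} {p : ℕ} (F : SimpleGraph ι) (a : ℕ) (ha : 2 ≤ a) (P : PSys ι p)
    (hP : P.Ok F a) (i j : Fin p) (hij : i ≠ j) :
    ∃ P' : PSys ι p, P'.Ok F a ∧ ∀ L : P'.W → P'.W → ZMod 2, ∃ ψ : P.W → P'.W,
      (∀ u, P'.part (ψ u) = P.part u) ∧ (∀ u v, P.G.Adj u v → P'.G.Adj (ψ u) (ψ v)) ∧
      (∀ c ∈ P.T, ψ ∘ c ∈ P'.T) ∧
      ∃ b : ZMod 2, ∀ u v, P.part u = i → P.part v = j → P.G.Adj u v → L (ψ u) (ψ v) = b := by
  haveI := P.fin
  obtain ⟨κ, _, hκ⟩ := Line.exists_mono_in_high_dimension (EE P i j) (ZMod 2)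
  obtain ⟨l₀, _⟩ := hκ fun _ => 0
  obtain ⟨m₀, _⟩ := l₀.proper
  haveI : Finite (Line (EE P i j) κ) := Finite.of_injective Line.idxFun fun x y h => Line.ext h
  refine ⟨⟨(κ → P.W) ⊕ (Line (EE P i j) κ × P.W), inferInstance, part' m₀, G' P i j κ,
    T' P i j κ⟩, ⟨?_, ?_, ?_, ?_, ?_, ?_, ?_⟩, ?_⟩
  · intro x y h
    exact adj_part hij hP.hpart m₀ h
  · rintro d ⟨l, c, hc, rfl⟩ k k' h
    simp only [Function.comp_apply, part_psi hij] at h
    exact hP.tinj c hc h
  · rintro d ⟨l, c, hc, rfl⟩ k k'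
    rw [Function.comp_apply, Function.comp_apply, adj_psi hij hP.hpart]
    exact hP.tadj c hc k k'
  · rintro x y ⟨l, u, v, h, rfl, rfl⟩
    obtain ⟨c, hc, ⟨k, hk⟩, ⟨k', hk'⟩⟩ := hP.etile u v h
    exact ⟨psi l ∘ c, ⟨l, c, hc, rfl⟩, ⟨k, by rw [Function.comp_apply, hk]⟩,
      ⟨k', by rw [Function.comp_apply, hk']⟩⟩
  · exact tri_new hij hP m₀
  · exact out_new hij hP m₀
  · exact small_new hij ha hP m₀
  · intro L
    obtain ⟨l, b, hb⟩ := hκ fun f => L (Sum.inl fun m => (f m).1.1) (Sum.inl fun m => (f m).1.2)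
    refine ⟨psi l, part_psi hij m₀ l, fun u v h => ⟨l, u, v, h, rfl, rfl⟩,
      fun c hc => ⟨l, c, hc, rfl⟩, b, fun u v hu hv h => ?_⟩
    have := hb ⟨(u, v), hu, hv, h⟩
    rw [← this, psi_in (Or.inl hu), psi_in (Or.inr hv)]
    congr 2
    · funext m
      rcases hl : l.idxFun m with _ | e
      · rw [pt_none hl]
        simp [hl]
      · rw [pt_i hl hu]
        simp [hl]
    · funext m
      rcases hl : l.idxFun m with _ | e
      · rw [pt_none hl]
        simp [hl]
      · rw [pt_j hij hl hv]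
        simp [hl]

end Pool.Agent.InvDiam
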