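import Pool.Agent.InvDiam.Lin

/-!
# InvDiam / Sub: from the core to graphs and their subdivisions

PROOF.  `A = V ⊕ G₃.edgeSet`; `G` on `A`: `inl u ~ inl v` iff `G₂.Adj u v`; `inl u ~ inr e` iff `u ∈ e`.
`B = A ⊕ G₂.edgeSet`; `H` on `B`: `inl (inl u) ~ inl (inr e)` iff `u ∈ e`; `inl (inl u) ~ inr e` iff `u ∈ e`.
`H` is a subdivision of `G`: `φ = inl`; the path of an edge `inl u ~ inl v` of `G` is `u, inr s(u,v), v` (two edges), the path
of an edge `inl u ~ inr e` is the edge itself.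
`invDiam G ≤ t` (`invDiam_le_iff`): given labels `π`, take `x` from the hypothesis for the labels on `V`; for `e = s(u,v)` an edge
of `G₃` the vectors `x u ≠ x v` are non-zero, hence linearly independent over `ZMod 2`, so there is `w` with
`w ⬝ᵥ x u` and `w ⬝ᵥ x v` the prescribed labels (elementary: for the four label pairs find `w` by a coordinate where
`x u`, `x v` are different and one where `x u` or `x v` is nonzero; or dimension count / `Module.Dual`).
`t + c < invDiam H`: else there are vectors for the labels which are `0` on `e.out.1 ~ e` and `1` on `e.out.2 ~ e`; then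
`x u ≠ x v` for every edge `uv` of `G₂` or `G₃`, against the second hypothesis.
-/

set_option autoImplicit false

namespace Pool.Agent.InvDiam

/-- The graph `G` before the subdivision. -/
private def gA {V : Type} (G₂ G₃ : SimpleGraph V) : SimpleGraph (V ⊕ G₃.edgeSet) where
  Adj a b := match a, b with
    | Sum.inl u, Sum.inl v => G₂.Adj u v
    | Sum.inl u, Sum.inr e => u ∈ e.1
    | Sum.inr e, Sum.inl u => u ∈ e.1
    | Sum.inr _, Sum.inr _ => False
  symm := ⟨by
    rintro (u | e) (v | f) h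
    · exact SimpleGraph.Adj.symm (G := G₂) h
    · exact h
    · exact h
    · exact h⟩
  loopless := ⟨by
    rintro (u | e) h
    · exact G₂.irrefl h
    · exact h⟩

/-- The subdivided graph `H`. -/
private def gB {V : Type} (G₂ G₃ : SimpleGraph V) :
    SimpleGraph ((V ⊕ G₃.edgeSet) ⊕ G₂.edgeSet) where
  Adj a b := match a, b with
    | Sum.inl (Sum.inl u), Sum.inl (Sum.inr e) => u ∈ e.1
    | Sum.inl (Sum.inr e), Sum.inl (Sum.inl u) => u ∈ e.1
    | Sum.inl (Sum.inl u), Sum.inr e => u ∈ e.1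
    | Sum.inr e, Sum.inl (Sum.inl u) => u ∈ e.1
    | _, _ => False
  symm := ⟨by
    rintro ((u | e) | e) ((v | f) | f) h
    all_goals exact h⟩
  loopless := ⟨by
    rintro ((u | e) | e) h
    all_goals exact h⟩

private theorem two_eq {B : Type} {H : SimpleGraph B} {a b w w' : B} (hw : w = w')
    (h1 : H.Adj a w) (h2 : H.Adj w b) (h1' : H.Adj a w') (h2' : H.Adj w' b) :
    SimpleGraph.Walk.cons h1 (SimpleGraph.Walk.cons h2 SimpleGraph.Walk.nil) =
      SimpleGraph.Walk.cons h1' (SimpleGraph.Walk.cons h2' SimpleGraph.Walk.nil) := by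
  subst hw
  rfl

private theorem adjL {V : Type} (G₂ G₃ : SimpleGraph V) (u v : V) (h : G₂.Adj u v) :
    (gB G₂ G₃).Adj (Sum.inl (Sum.inl u)) (Sum.inr ⟨s(u, v), h⟩) := Sym2.mem_mk_left u v

private theorem adjR {V : Type} (G₂ G₃ : SimpleGraph V) (u v : V) (h : G₂.Adj u v) :
    (gB G₂ G₃).Adj (Sum.inr ⟨s(u, v), h⟩) (Sum.inl (Sum.inl v)) := Sym2.mem_mk_right u v

private theorem adjE {V : Type} (G₂ G₃ : SimpleGraph V) (u : V) (e : G₃.edgeSet) (h : u ∈ e.1) :
    (gB G₂ G₃).Adj (Sum.inl (Sum.inl u)) (Sum.inl (Sum.inr e)) := h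

/-- The path which replaces an edge. -/
private def pth {V : Type} (G₂ G₃ : SimpleGraph V) : ∀ a b : V ⊕ G₃.edgeSet,
    (gA G₂ G₃).Adj a b → (gB G₂ G₃).Walk (Sum.inl a) (Sum.inl b)
  | Sum.inl u, Sum.inl v, h => SimpleGraph.Walk.cons (adjL G₂ G₃ u v h)
      (SimpleGraph.Walk.cons (adjR G₂ G₃ u v h) SimpleGraph.Walk.nil)
  | Sum.inl u, Sum.inr e, h => SimpleGraph.Walk.cons (adjE G₂ G₃ u e h) SimpleGraph.Walk.nil
  | Sum.inr e, Sum.inl u, h => SimpleGraph.Walk.cons (adjE G₂ G₃ u e h).symm SimpleGraph.Walk.nil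
  | Sum.inr _, Sum.inr _, h => h.elim

private theorem isSub {V : Type} (G₂ G₃ : SimpleGraph V) :
    IsSubdivision (gA G₂ G₃) (gB G₂ G₃) := by
  refine ⟨Sum.inl, pth G₂ G₃, Sum.inl_injective, ?_, ?_, ?_, ?_, ?_, ?_⟩
  · rintro (u | e) (v | f) h
    · have huv : u ≠ v := G₂.ne_of_adj h
      simp [pth, SimpleGraph.Walk.cons_isPath_iff, huv]
    · simp [pth, SimpleGraph.Walk.cons_isPath_iff]
    · simp [pth, SimpleGraph.Walk.cons_isPath_iff]
    · exact h.elim
  · rintro (u | e) (v | f) h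
    · simp only [pth, SimpleGraph.Walk.reverse_cons, SimpleGraph.Walk.reverse_nil,
        SimpleGraph.Walk.nil_append, SimpleGraph.Walk.cons_append]
      exact two_eq (congrArg Sum.inr (Subtype.ext Sym2.eq_swap)) _ _ _ _
    · rfl
    · rfl
    · exact h.elim
  · rintro (u | e) (v | f) h x hx
    · simpa [pth] using hx
    · simpa [pth] using hx
    · simpa [pth] using hx
    · exact h.elim
  · rintro (u | e) (v | f) h (u' | e') (v' | f') h' (w | w) hne hw hw'
    all_goals first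
      | exact ⟨w, rfl⟩
      | exact h.elim
      | exact h'.elim
      | (simp [pth] at hw; done)
      | (simp [pth] at hw'; done)
      | skip
    simp only [pth, SimpleGraph.Walk.support_cons, SimpleGraph.Walk.support_nil, List.mem_cons,
      reduceCtorEq, List.not_mem_nil, or_false, false_or, Sum.inr.injEq] at hw hw'
    exfalso
    apply hne
    rw [hw] at hw'
    have h3 : s(u, v) = s(u', v') := congrArg Subtype.val hw'
    rw [Sym2.eq_iff] at h3 ⊢
    rcases h3 with ⟨h4, h5⟩ | ⟨h4, h5⟩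
    · exact Or.inl ⟨congrArg _ h4, congrArg _ h5⟩
    · exact Or.inr ⟨congrArg _ h4, congrArg _ h5⟩
  · rintro (w | ⟨e, he⟩)
    · exact Or.inl ⟨w, rfl⟩
    · right
      induction e using Sym2.ind with
      | _ u v =>
        refine ⟨Sum.inl u, Sum.inl v, he, ?_⟩
        simp [pth]
  · have key : ∀ (u : V) (e : Sym2 V) (he : e ∈ G₂.edgeSet), u ∈ e →
        ∃ a b h, s(Sum.inl (Sum.inl u), Sum.inr ⟨e, he⟩) ∈ (pth G₂ G₃ a b h).edges := by
      intro u e he hu
      obtain ⟨v, rfl⟩ := Sym2.mem_iff_exists.1 hu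
      refine ⟨Sum.inl u, Sum.inl v, he, ?_⟩
      simp [pth]
    rintro ((u | e) | ⟨e, he⟩) ((v | f) | ⟨f, hf⟩) h
    all_goals first
      | exact h.elim
      | skip
    · refine ⟨Sum.inl u, Sum.inr f, h, ?_⟩
      simp [pth]
    · exact key u f hf h
    · refine ⟨Sum.inr e, Sum.inl v, h, ?_⟩
      simp [pth]
    · obtain ⟨a, b, h', h''⟩ := key v e he h
      refine ⟨a, b, h', ?_⟩
      rw [Sym2.eq_swap]
      exact h''

private theorem z2 (a : ZMod 2) : a = 0 ∨ a = 1 := by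
  revert a
  decide

private theorem solve_aux {t : ℕ} (a b : Fin t → ZMod 2) (i j : Fin t) (h1 : a i = 1)
    (h2 : b i = 0) (h3 : b j = 1) (α β : ZMod 2) :
    ∃ w : Fin t → ZMod 2, a ⬝ᵥ w = α ∧ b ⬝ᵥ w = β := by
  refine ⟨Pi.single j β + Pi.single i (α - a j * β), ?_, ?_⟩
  · rw [dotProduct_add, dotProduct_single, dotProduct_single, h1]
    ring
  · rw [dotProduct_add, dotProduct_single, dotProduct_single, h2, h3]
    ring

private theorem exists_one {t : ℕ} (a : Fin t → ZMod 2) (ha : a ≠ 0) : ∃ i, a i = 1 := by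
  by_contra hno
  push Not at hno
  apply ha
  funext i
  rcases z2 (a i) with h | h
  · exact h
  · exact absurd h (hno i)

private theorem solve {t : ℕ} (a b : Fin t → ZMod 2) (ha : a ≠ 0) (hb : b ≠ 0) (hab : a ≠ b)
    (α β : ZMod 2) : ∃ w : Fin t → ZMod 2, a ⬝ᵥ w = α ∧ b ⬝ᵥ w = β := by
  obtain ⟨i, hi⟩ := Function.ne_iff.1 hab
  rcases z2 (a i) with h1 | h1 <;> rcases z2 (b i) with h2 | h2
  · exact absurd (h1.trans h2.symm) hi
  · obtain ⟨j, hj⟩ := exists_one a ha
    obtain ⟨w, hw1, hw2⟩ := solve_aux b a i j h2 h1 hj β α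
    exact ⟨w, hw2, hw1⟩
  · obtain ⟨j, hj⟩ := exists_one b hb
    exact solve_aux a b i j h1 h2 hj α β
  · exact absurd (h1.trans h2.symm) hi

private theorem exists_lab (V : Type) : ∃ lab : Sym2 V → V → ZMod 2,
    ∀ u v, u ≠ v → lab s(u, v) u ≠ lab s(u, v) v := by
  classical
  refine ⟨fun e u => if u = (Quot.out e).1 then 1 else 0, fun u v huv => ?_⟩
  have h1 : s((Quot.out s(u, v)).1, (Quot.out s(u, v)).2) = s(u, v) := Quot.out_eq s(u, v)
  rw [Sym2.eq_iff] at h1
  rcases h1 with ⟨h2, h3⟩ | ⟨h2, h3⟩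
  · simp only [h2, if_neg huv.symm, if_true]
    exact one_ne_zero
  · simp only [h2, if_neg huv, if_true]
    exact zero_ne_one

theorem sub_of_core {V : Type} [Finite V] (t c : ℕ) (G₂ G₃ : SimpleGraph V)
    (h1 : ∀ π : V → V → ZMod 2, (∀ u v, π u v = π v u) → ∃ x : V → Fin t → ZMod 2,
      (∀ v, x v ≠ 0) ∧ (∀ u v, G₃.Adj u v → x u ≠ x v) ∧
      (∀ u v, G₂.Adj u v → x u ⬝ᵥ x v = π u v))
    (h2 : ¬ ∃ f : V → Fin (t + c) → ZMod 2, ∀ u v, G₂.Adj u v ∨ G₃.Adj u v → f u ≠ f v) :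
    ∃ (A B : Type) (_ : Finite A) (_ : Finite B) (G : SimpleGraph A) (H : SimpleGraph B),
      IsSubdivision G H ∧ invDiam G ≤ t ∧ t + c < invDiam H := by
  refine ⟨V ⊕ G₃.edgeSet, (V ⊕ G₃.edgeSet) ⊕ G₂.edgeSet, inferInstance, inferInstance,
    gA G₂ G₃, gB G₂ G₃, isSub G₂ G₃, ?_, ?_⟩
  · rw [invDiam_le_iff]
    intro π hπ
    obtain ⟨x, hx0, hx3, hx2⟩ := h1 (fun u v => π (Sum.inl u) (Sum.inl v)) fun u v => hπ _ _
    have hw : ∀ e : G₃.edgeSet, ∃ w : Fin t → ZMod 2, ∀ u, u ∈ e.1 →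
        x u ⬝ᵥ w = π (Sum.inl u) (Sum.inr e) := by
      rintro ⟨e, he⟩
      induction e using Sym2.ind with
      | _ u v =>
        obtain ⟨w, hw1, hw2⟩ := solve (x u) (x v) (hx0 u) (hx0 v) (hx3 u v he)
          (π (Sum.inl u) (Sum.inr ⟨s(u, v), he⟩)) (π (Sum.inl v) (Sum.inr ⟨s(u, v), he⟩))
        refine ⟨w, fun a ha => ?_⟩
        rcases Sym2.mem_iff.1 ha with rfl | rfl
        · exact hw1
        · exact hw2
    choose w hw using hw
    refine ⟨Sum.elim x w, ?_⟩
    rintro (u | e) (v | f) h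
    · exact hx2 u v h
    · exact hw f u h
    · rw [hπ, ← hw e v h, dotProduct_comm]
      rfl
    · exact h.elim
  · by_contra hcon
    rw [not_lt, invDiam_le_iff] at hcon
    obtain ⟨lab, hlab⟩ := exists_lab V
    obtain ⟨y, hy⟩ := hcon (fun a b => match a, b with
      | Sum.inl (Sum.inl u), Sum.inl (Sum.inr e) => lab e.1 u
      | Sum.inl (Sum.inr e), Sum.inl (Sum.inl u) => lab e.1 u
      | Sum.inl (Sum.inl u), Sum.inr e => lab e.1 u
      | Sum.inr e, Sum.inl (Sum.inl u) => lab e.1 u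
      | _, _ => 0) (by
        rintro ((u | e) | e) ((v | f) | f)
        all_goals rfl)
    apply h2
    refine ⟨fun u => y (Sum.inl (Sum.inl u)), fun u v huv heq => ?_⟩
    rcases huv with huv | huv
    · have e1 := hy (Sum.inl (Sum.inl u)) (Sum.inr ⟨s(u, v), huv⟩) (Sym2.mem_mk_left u v)
      have e2 := hy (Sum.inl (Sum.inl v)) (Sum.inr ⟨s(u, v), huv⟩) (Sym2.mem_mk_right u v)
      apply hlab u v huv.ne
      simp only at e1 e2 heq
      rw [← e1, ← e2, heq]
    · have e1 := hy (Sum.inl (Sum.inl u)) (Sum.inl (Sum.inr ⟨s(u, v), huv⟩)) (Sym2.mem_mk_left u v)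
      have e2 := hy (Sum.inl (Sum.inl v)) (Sum.inl (Sum.inr ⟨s(u, v), huv⟩)) (Sym2.mem_mk_right u v)
      apply hlab u v huv.ne
      simp only at e1 e2 heq
      rw [← e1, ← e2, heq]

end Pool.Agent.InvDiam
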